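import Pool.Agent.V11304.TM.Main

/-!
# Approximations of `T_p(3,3)` and `T_{p-1}(3,3)` modulo powers of `p`
-/

set_option autoImplicit false

namespace Pool.Agent.V11304.TM

open Finset Pool.Agent.V11304.PI

variable {p : ℕ} [hp : Fact p.Prime]

lemma mul_congr {n : ℕ} {a a0 b b0 : ℚ} (ha : Dv p n (a - a0)) (hb : Dv p n (b - b0))
    (h0 : In p a0) (h1 : In p b) : Dv p n (a * b - a0 * b0) := by
  have e : a * b - a0 * b0 = (a - a0) * b + a0 * (b - b0) := by ring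
  rw [e]
  exact (ha.mul_in h1).add (hb.in_mul h0)

lemma dv_trans {n : ℕ} {a b c : ℚ} (h : Dv p n (a - b)) (h' : Dv p n (b - c)) : Dv p n (a - c) := by
  have e : a - c = (a - b) + (b - c) := by ring
  rw [e]
  exact h.add h'

lemma in_of_dv {n : ℕ} {a b : ℚ} (h : Dv p n (a - b)) (hb : In p b) : In p a := by
  obtain ⟨u, hu, h1⟩ := h
  have : a = b + (p : ℚ) ^ n * u := by linarith
  rw [this]
  exact hb.add (((in_nat p).pow n).mul hu)

/-- the convolution of harmonic numbers -/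
lemma conv (m : ℕ) : ∑ v ∈ range m, H (m - 1 - v) * ((v : ℚ) + 1)⁻¹ = 2 * E m := by
  induction m with
  | zero => simp [E_zero]
  | succ m ih =>
    rw [sum_range_succ]
    simp only [Nat.add_sub_cancel, Nat.sub_self, H_zero, zero_mul, add_zero]
    have h1 : ∀ v ∈ range m, H (m - v) * ((v : ℚ) + 1)⁻¹ = H (m - 1 - v) * ((v : ℚ) + 1)⁻¹ +
        ((m : ℚ) + 1)⁻¹ * ((((m - 1 - v : ℕ) : ℚ) + 1)⁻¹ + ((v : ℚ) + 1)⁻¹) := by
      intro v hv
      rw [mem_range] at hv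
      have h2 : m - v = (m - 1 - v) + 1 := by omega
      rw [h2, H_succ]
      have h3 : ((m - 1 - v : ℕ) : ℚ) = m - 1 - v := by
        have h4 : m - 1 - v + (1 + v) = m := by omega
        have h5 : ((m - 1 - v + (1 + v) : ℕ) : ℚ) = (m : ℚ) := by rw [h4]
        push_cast at h5 ⊢
        linarith
      rw [h3]
      have h4 : (v : ℚ) + 1 ≠ 0 := by positivity
      have h5 : (m : ℚ) + 1 ≠ 0 := by positivity
      have h6 : (m : ℚ) - 1 - v + 1 ≠ 0 := by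
        rw [← h3]
        positivity
      field_simp
      ring
    rw [sum_congr rfl h1, sum_add_distrib, ih, ← mul_sum, sum_add_distrib]
    have h2 : ∑ v ∈ range m, (((m - 1 - v : ℕ) : ℚ) + 1)⁻¹ = H m := by
      rw [Finset.sum_range_reflect (fun j : ℕ => ((j : ℚ) + 1)⁻¹) m]
      rfl
    rw [h2, E_succ]
    unfold H
    ring

section
variable (h3 : 3 < p)
include h3

/-- `T_p ≡ 3 - p H_m (mod p²)` with `m = ⌊p/3⌋` -/
lemma Tp_approx : Dv p 2 ((T 3 3 p : ℚ) - (3 - p * H (p / 3))) := by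
  rw [Tp_formula h3]
  have e : 3 * Q p 2 (p - 1) - ∑ v ∈ range (p / 3), p / ((v : ℚ) + 1) * Q p (-1) v *
      Q p 2 (p - 3 * (v + 1)) - (3 - p * H (p / 3)) =
      3 * (Q p 2 (p - 1) - 1) - ∑ v ∈ range (p / 3), (p : ℚ) ^ 1 * (((v : ℚ) + 1)⁻¹ *
        (Q p (-1) v * Q p 2 (p - 3 * (v + 1)) - 1 * 1)) := by
    have h1 : ∑ v ∈ range (p / 3), (p : ℚ) ^ 1 * (((v : ℚ) + 1)⁻¹ *
        (Q p (-1) v * Q p 2 (p - 3 * (v + 1)) - 1 * 1)) =
        ∑ v ∈ range (p / 3), p / ((v : ℚ) + 1) * Q p (-1) v * Q p 2 (p - 3 * (v + 1)) -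
          p * H (p / 3) := by
      unfold H
      rw [mul_sum, ← sum_sub_distrib]
      apply sum_congr rfl
      intro v _
      rw [div_eq_mul_inv]
      ring
    rw [h1]
    ring
  rw [e]
  apply Dv.sub
  · exact ((Q_top h3 in_two).mono (by norm_num)).in_mul in_three
  · apply Dv.sum
    intro v hv
    rw [mem_range] at hv
    apply Dv.mul (n := 1) (m := 1) (dv_p 1)
    apply Dv.in_mul _ (in_inv_succ (by omega))
    exact mul_congr (Q1 in_neg_one (by omega)) (Q1 in_two (by omega)) in_one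
      (in_Q in_two (by omega))

/-- the first part of the difference -/
lemma term_one {v : ℕ} (hv : 3 * (v + 1) < p) :
    Dv p 3 (Q p (-1) (v + 1) * (2 * p / ((p : ℚ) - 3 * ((v : ℚ) + 1)) * Q p 2 (p - 1 - 3 * (v + 1))) -
      2 * p * (-(3 * ((v : ℚ) + 1))⁻¹ - p * ((3 * ((v : ℚ) + 1))⁻¹) ^ 2 -
        p * (3 * ((v : ℚ) + 1))⁻¹ * (2 * H (3 * (v + 1)) - H (v + 1)))) := by
  set x : ℚ := 3 * ((v : ℚ) + 1) with hx
  have hxc : ((3 * (v + 1) : ℕ) : ℚ) = x := by rw [hx]; push_cast; ring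
  have hx0 : x ≠ 0 := by rw [hx]; positivity
  have hix : In p (x⁻¹) := by
    rw [← hxc]
    exact in_inv_lt (by omega) hv
  have hpx : ((p - 3 * (v + 1) : ℕ) : ℚ) = (p : ℚ) - x := by
    rw [Nat.cast_sub hv.le, hxc]
  have hpx0 : (p : ℚ) - x ≠ 0 := by
    rw [← hpx]
    have : 0 < p - 3 * (v + 1) := by omega
    positivity
  have hipx : In p (((p : ℚ) - x)⁻¹) := by
    rw [← hpx]
    exact in_inv_lt (by omega) (by omega)
  -- the product of the two Q's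
  have hQ : Dv p 2 (Q p (-1) (v + 1) * Q p 2 (p - 1 - 3 * (v + 1)) -
      (1 + p * (2 * H (3 * (v + 1)) - H (v + 1)))) := by
    have a1 := Q2 (p := p) in_neg_one (n := v + 1) (by omega)
    have a2 := Q2 (p := p) in_two (n := p - 1 - 3 * (v + 1)) (by omega)
    have a3 := mul_congr a1 a2 (in_one.add ((in_neg_one.mul (in_nat p)).mul (in_H (by omega))))
      (in_Q in_two (by omega))
    refine dv_trans a3 ?_
    have a4 := H_refl h3 (k := 3 * (v + 1)) hv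
    have e : (1 + -1 * (p : ℚ) * H (v + 1)) * (1 + 2 * p * H (p - 1 - 3 * (v + 1))) -
        (1 + p * (2 * H (3 * (v + 1)) - H (v + 1))) =
        2 * ((p : ℚ) ^ 1 * (H (p - 1 - 3 * (v + 1)) - H (3 * (v + 1)))) +
        (p : ℚ) ^ 2 * (-2 * H (v + 1) * H (p - 1 - 3 * (v + 1))) := by ring
    rw [e]
    apply Dv.add
    · exact (((dv_p 1).mul a4)).in_mul in_two
    · apply (dv_p 2).mul_in
      exact ((in_two.neg).mul (in_H (by omega))).mul (in_H (by omega))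
  have hinv : Dv p 2 (((p : ℚ) - x)⁻¹ - (-x⁻¹ - p * (x⁻¹) ^ 2)) := by
    have e : ((p : ℚ) - x)⁻¹ - (-x⁻¹ - p * (x⁻¹) ^ 2) = (p : ℚ) ^ 2 * (((p : ℚ) - x)⁻¹ * x⁻¹ ^ 2) := by
      field_simp
      ring
    rw [e]
    exact (dv_p 2).mul_in (hipx.mul (hix.pow 2))
  have hmain := mul_congr hinv hQ (hix.neg.sub ((in_nat p).mul (hix.pow 2)))
    ((in_Q in_neg_one (by omega)).mul (in_Q in_two (by omega)))
  have hfin : Dv p 2 (((p : ℚ) - x)⁻¹ * (Q p (-1) (v + 1) * Q p 2 (p - 1 - 3 * (v + 1))) -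
      (-x⁻¹ - p * (x⁻¹) ^ 2 - p * x⁻¹ * (2 * H (3 * (v + 1)) - H (v + 1)))) := by
    refine dv_trans hmain ?_
    have e : (-x⁻¹ - p * (x⁻¹) ^ 2) * (1 + p * (2 * H (3 * (v + 1)) - H (v + 1))) -
      (-x⁻¹ - p * (x⁻¹) ^ 2 - p * x⁻¹ * (2 * H (3 * (v + 1)) - H (v + 1))) =
      (p : ℚ) ^ 2 * (-(x⁻¹) ^ 2 * (2 * H (3 * (v + 1)) - H (v + 1))) := by ring
    rw [e]
    apply (dv_p 2).mul_in
    exact (hix.pow 2).neg.mul ((in_two.mul (in_H (by omega))).sub (in_H (by omega)))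
  have h := ((dv_p (p := p) 1).mul hfin).in_mul in_two
  have e : Q p (-1) (v + 1) * (2 * p / ((p : ℚ) - x) * Q p 2 (p - 1 - 3 * (v + 1))) -
      2 * p * (-x⁻¹ - p * (x⁻¹) ^ 2 - p * x⁻¹ * (2 * H (3 * (v + 1)) - H (v + 1))) =
      2 * ((p : ℚ) ^ 1 * (((p : ℚ) - x)⁻¹ * (Q p (-1) (v + 1) * Q p 2 (p - 1 - 3 * (v + 1))) -
      (-x⁻¹ - p * (x⁻¹) ^ 2 - p * x⁻¹ * (2 * H (3 * (v + 1)) - H (v + 1))))) := by
    rw [div_eq_mul_inv]
    ring
  rw [e]
  exact h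

/-- the second part of the difference, `x` a number between `1` and `p - 1` -/
lemma term_two {l n x : ℕ} (hl : l < p) (hn : n < p) (hx0 : 0 < x) (hx : x < p) :
    Dv p 3 (Q p (-1) l * (2 * p / (x : ℚ) * Q p 2 n) -
      2 * p * (x : ℚ)⁻¹ * (1 + p * (2 * H n - H l))) := by
  have hix : In p ((x : ℚ)⁻¹) := in_inv_lt hx0 hx
  have a1 := Q2 (p := p) in_neg_one (n := l) hl
  have a2 := Q2 (p := p) in_two (n := n) hn
  have a3 := mul_congr a1 a2 (in_one.add ((in_neg_one.mul (in_nat p)).mul (in_H hl))) (in_Q in_two hn)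
  have hQ : Dv p 2 (Q p (-1) l * Q p 2 n - (1 + p * (2 * H n - H l))) := by
    refine dv_trans a3 ?_
    have e : (1 + -1 * (p : ℚ) * H l) * (1 + 2 * p * H n) - (1 + p * (2 * H n - H l)) =
        (p : ℚ) ^ 2 * (-2 * H l * H n) := by ring
    rw [e]
    exact (dv_p 2).mul_in (((in_two.neg).mul (in_H hl)).mul (in_H hn))
  have e : Q p (-1) l * (2 * p / (x : ℚ) * Q p 2 n) -
      2 * p * (x : ℚ)⁻¹ * (1 + p * (2 * H n - H l)) =
      (2 * (x : ℚ)⁻¹) * ((p : ℚ) ^ 1 * (Q p (-1) l * Q p 2 n - (1 + p * (2 * H n - H l)))) := by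
    rw [div_eq_mul_inv]
    ring
  rw [e]
  exact ((dv_p 1).mul hQ).in_mul (in_two.mul hix)

/-- `∑ 1/(3v+2) ≡ 0` for `p ≡ 1 (mod 3)` -/
lemma sum_two {m : ℕ} (hpm : p = 3 * m + 1) :
    Dv p 1 (∑ v ∈ range m, ((3 * v + 2 : ℕ) : ℚ)⁻¹) := by
  have h1 : 2 * ∑ v ∈ range m, ((3 * v + 2 : ℕ) : ℚ)⁻¹ =
      ∑ v ∈ range m, (p : ℚ) ^ 1 * (((3 * v + 2 : ℕ) : ℚ)⁻¹ * ((p : ℚ) - ((3 * v + 2 : ℕ) : ℚ))⁻¹) := by
    have h2 : ∑ v ∈ range m, ((3 * v + 2 : ℕ) : ℚ)⁻¹ =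
        ∑ v ∈ range m, ((p : ℚ) - ((3 * v + 2 : ℕ) : ℚ))⁻¹ := by
      rw [← sum_range_reflect]
      apply sum_congr rfl
      intro v hv
      rw [mem_range] at hv
      rw [← Nat.cast_sub (by omega)]
      congr 2
      omega
    rw [two_mul]
    nth_rewrite 1 [h2]
    rw [← sum_add_distrib]
    apply sum_congr rfl
    intro v hv
    rw [mem_range] at hv
    rw [pow_one]
    apply pair_inv
    · positivity
    · rw [← Nat.cast_sub (by omega)]
      have : 0 < p - (3 * v + 2) := by omega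
      positivity
  have h2 : ∑ v ∈ range m, ((3 * v + 2 : ℕ) : ℚ)⁻¹ = (2 : ℚ)⁻¹ *
      ∑ v ∈ range m, (p : ℚ) ^ 1 * (((3 * v + 2 : ℕ) : ℚ)⁻¹ * ((p : ℚ) - ((3 * v + 2 : ℕ) : ℚ))⁻¹) := by
    rw [← h1]
    ring
  rw [h2]
  apply Dv.in_mul _ (in_inv_two h3)
  apply Dv.sum
  intro v hv
  rw [mem_range] at hv
  apply (dv_p 1).mul_in
  apply In.mul
  · exact in_inv_lt (by omega) (by omega)
  · rw [← Nat.cast_sub (by omega)]
    exact in_inv_lt (by omega) (by omega)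

/-- the approximation of `rho` -/
lemma rho_approx : Dv p 3 ((rho p : ℚ) - (1 - ∑ v ∈ range (p / 3),
    p * (3 * ((v : ℚ) + 1))⁻¹ * (1 - p * H (3 * v + 2)))) := by
  have hmod : p % 3 ≠ 0 := by
    intro h0
    have := (Nat.prime_dvd_prime_iff_eq Nat.prime_three hp.out).1 (Nat.dvd_of_mod_eq_zero h0)
    omega
  rw [rho_formula h3]
  have e : 1 - ∑ v ∈ range (p / 3), p / (3 * ((v : ℚ) + 1)) * Q p (-1) (3 * v + 2) -
      (1 - ∑ v ∈ range (p / 3), p * (3 * ((v : ℚ) + 1))⁻¹ * (1 - p * H (3 * v + 2))) =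
      -∑ v ∈ range (p / 3), (p : ℚ) ^ 1 * ((3 * ((v : ℚ) + 1))⁻¹ *
        (Q p (-1) (3 * v + 2) - (1 + -1 * p * H (3 * v + 2)))) := by
    have h1 : ∑ v ∈ range (p / 3), (p : ℚ) ^ 1 * ((3 * ((v : ℚ) + 1))⁻¹ *
        (Q p (-1) (3 * v + 2) - (1 + -1 * p * H (3 * v + 2)))) =
        ∑ v ∈ range (p / 3), p / (3 * ((v : ℚ) + 1)) * Q p (-1) (3 * v + 2) -
          ∑ v ∈ range (p / 3), p * (3 * ((v : ℚ) + 1))⁻¹ * (1 - p * H (3 * v + 2)) := by
      rw [← sum_sub_distrib]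
      apply sum_congr rfl
      intro v _
      rw [div_eq_mul_inv]
      ring
    rw [h1]
    ring
  rw [e]
  apply Dv.neg
  apply Dv.sum
  intro v hv
  rw [mem_range] at hv
  apply Dv.mul (n := 1) (m := 2) (dv_p 1)
  have hix : In p ((3 * ((v : ℚ) + 1))⁻¹) := by
    have : ((3 * (v + 1) : ℕ) : ℚ) = 3 * ((v : ℚ) + 1) := by push_cast; ring
    rw [← this]
    exact in_inv_lt (by omega) (by omega)
  apply Dv.in_mul _ hix
  exact Q2 in_neg_one (by omega)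

/-- `T_p - T_{p-1} ≡ 4 rho (mod p³)` for `p ≡ 2 (mod 3)` -/
lemma diff_two (hmod : p % 3 = 2) :
    Dv p 3 ((T 3 3 p : ℚ) - T 3 3 (p - 1) - 4 * rho p) := by
  set m := p / 3 with hm
  have hpm : p = 3 * m + 2 := by omega
  have hD : (T 3 3 p : ℚ) - T 3 3 (p - 1) = 2 * Q p 2 (p - 1) + 2 * Q p (-1) m +
      ∑ v ∈ range m, (Q p (-1) (v + 1) * (2 * p / ((p : ℚ) - 3 * ((v : ℚ) + 1)) *
          Q p 2 (p - 1 - 3 * (v + 1))) +
        2 * (Q p (-1) (m - 1 - v) * (2 * p / ((3 * (v + 1) : ℕ) : ℚ) * Q p 2 (3 * v + 2)))) := by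
    rw [D_formula h3, ← hm]
    have h1 : ∀ v ∈ range (m + 1), Q p (-1) v * (((3 * (p - 1 - v) + 2).choose (2 * p - 1) : ℚ) +
        2 * ((3 * (p - 1 - v)).choose (2 * p - 1) : ℚ)) =
        Q p (-1) v * (2 * p / ((p - 3 * v : ℕ) : ℚ) * Q p 2 (p - 3 * v - 1)) +
        2 * (Q p (-1) v * ((2 * p - 1 + 3 * (m - v)).choose (2 * p - 1) : ℚ)) := by
      intro v hv
      rw [mem_range] at hv
      have e1 : 3 * (p - 1 - v) + 2 = 2 * p - 1 + (p - 3 * v) := by omega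
      have e2 : 3 * (p - 1 - v) = 2 * p - 1 + 3 * (m - v) := by omega
      rw [e1, choose_Q' (by omega), e2]
      ring
    rw [sum_congr rfl h1, sum_add_distrib]
    have h2 : ∑ v ∈ range (m + 1), Q p (-1) v * (2 * p / ((p - 3 * v : ℕ) : ℚ) * Q p 2 (p - 3 * v - 1)) =
        2 * Q p 2 (p - 1) + ∑ v ∈ range m, (Q p (-1) (v + 1) * (2 * p / ((p : ℚ) - 3 * ((v : ℚ) + 1)) *
          Q p 2 (p - 1 - 3 * (v + 1)))) := by
      rw [sum_range_succ', add_comm]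
      congr 1
      · have hpq : (p : ℚ) ≠ 0 := by
          have := hp.out.pos
          positivity
        simp only [Q_zero, mul_zero, Nat.sub_zero, one_mul]
        field_simp
      · apply sum_congr rfl
        intro v hv
        rw [mem_range] at hv
        rw [Nat.cast_sub (show 3 * (v + 1) ≤ p by omega),
          show p - 3 * (v + 1) - 1 = p - 1 - 3 * (v + 1) by omega]
        push_cast
        ring
    have h4 : ∑ v ∈ range (m + 1), 2 * (Q p (-1) v * ((2 * p - 1 + 3 * (m - v)).choose (2 * p - 1) : ℚ)) =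
        2 * Q p (-1) m + ∑ v ∈ range m,
          2 * (Q p (-1) (m - 1 - v) * (2 * p / ((3 * (v + 1) : ℕ) : ℚ) * Q p 2 (3 * v + 2))) := by
      rw [← sum_range_reflect, sum_range_succ', add_comm]
      congr 1
      · simp
      · apply sum_congr rfl
        intro v hv
        rw [mem_range] at hv
        rw [show m + 1 - 1 - (v + 1) = m - 1 - v by omega, show m - (m - 1 - v) = v + 1 by omega,
          choose_Q' (by omega), show 3 * (v + 1) - 1 = 3 * v + 2 by omega]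
    rw [h2, h4, sum_add_distrib]
    ring
  -- the exact identity behind the congruence
  have hexact : ∑ v ∈ range m, (2 * p * (-(3 * ((v : ℚ) + 1))⁻¹ - p * ((3 * ((v : ℚ) + 1))⁻¹) ^ 2 -
        p * (3 * ((v : ℚ) + 1))⁻¹ * (2 * H (3 * (v + 1)) - H (v + 1))) +
        2 * (2 * p * ((3 * (v + 1) : ℕ) : ℚ)⁻¹ * (1 + p * (2 * H (3 * v + 2) - H (m - 1 - v)))) +
        4 * (p * (3 * ((v : ℚ) + 1))⁻¹ * (1 - p * H (3 * v + 2)))) =
        2 * p * H m - 2 * p ^ 2 * E m := by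
    have h1 : ∀ v ∈ range m, (2 * p * (-(3 * ((v : ℚ) + 1))⁻¹ - p * ((3 * ((v : ℚ) + 1))⁻¹) ^ 2 -
        p * (3 * ((v : ℚ) + 1))⁻¹ * (2 * H (3 * (v + 1)) - H (v + 1))) +
        2 * (2 * p * ((3 * (v + 1) : ℕ) : ℚ)⁻¹ * (1 + p * (2 * H (3 * v + 2) - H (m - 1 - v)))) +
        4 * (p * (3 * ((v : ℚ) + 1))⁻¹ * (1 - p * H (3 * v + 2)))) =
        2 * p * ((v : ℚ) + 1)⁻¹ + (2 / 3 * p ^ 2) * (H v * ((v : ℚ) + 1)⁻¹) -
        (4 / 3 * p ^ 2) * (H (m - 1 - v) * ((v : ℚ) + 1)⁻¹) := by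
      intro v _
      have e : H (3 * (v + 1)) = H (3 * v + 2) + (3 * ((v : ℚ) + 1))⁻¹ := by
        rw [show 3 * (v + 1) = 3 * v + 2 + 1 by ring, H_succ]
        congr 1
        push_cast
        ring
      rw [e, H_succ v]
      push_cast
      rw [mul_inv]
      ring
    rw [sum_congr rfl h1, sum_sub_distrib, sum_add_distrib, ← mul_sum, ← mul_sum, ← mul_sum, conv]
    change 2 * (p : ℚ) * H m + 2 / 3 * p ^ 2 * E m - 4 / 3 * p ^ 2 * (2 * E m) = _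
    ring
  rw [hD]
  have hrho := rho_approx h3
  rw [← hm] at hrho
  have e : 2 * Q p 2 (p - 1) + 2 * Q p (-1) m +
      ∑ v ∈ range m, (Q p (-1) (v + 1) * (2 * p / ((p : ℚ) - 3 * ((v : ℚ) + 1)) *
          Q p 2 (p - 1 - 3 * (v + 1))) +
        2 * (Q p (-1) (m - 1 - v) * (2 * p / ((3 * (v + 1) : ℕ) : ℚ) * Q p 2 (3 * v + 2)))) -
      4 * rho p =
      2 * (Q p 2 (p - 1) - 1) +
      2 * (Q p (-1) m - (1 + -1 * p * H m + (-1) ^ 2 * p ^ 2 * E m)) -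
      4 * ((rho p : ℚ) - (1 - ∑ v ∈ range m,
        p * (3 * ((v : ℚ) + 1))⁻¹ * (1 - p * H (3 * v + 2)))) +
      ∑ v ∈ range m, ((Q p (-1) (v + 1) * (2 * p / ((p : ℚ) - 3 * ((v : ℚ) + 1)) *
          Q p 2 (p - 1 - 3 * (v + 1))) -
          2 * p * (-(3 * ((v : ℚ) + 1))⁻¹ - p * ((3 * ((v : ℚ) + 1))⁻¹) ^ 2 -
        p * (3 * ((v : ℚ) + 1))⁻¹ * (2 * H (3 * (v + 1)) - H (v + 1)))) +
        2 * (Q p (-1) (m - 1 - v) * (2 * p / ((3 * (v + 1) : ℕ) : ℚ) * Q p 2 (3 * v + 2)) -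
          2 * p * ((3 * (v + 1) : ℕ) : ℚ)⁻¹ * (1 + p * (2 * H (3 * v + 2) - H (m - 1 - v))))) := by
    have h5 : ∑ v ∈ range m, ((Q p (-1) (v + 1) * (2 * p / ((p : ℚ) - 3 * ((v : ℚ) + 1)) *
          Q p 2 (p - 1 - 3 * (v + 1))) -
          2 * p * (-(3 * ((v : ℚ) + 1))⁻¹ - p * ((3 * ((v : ℚ) + 1))⁻¹) ^ 2 -
        p * (3 * ((v : ℚ) + 1))⁻¹ * (2 * H (3 * (v + 1)) - H (v + 1)))) +
        2 * (Q p (-1) (m - 1 - v) * (2 * p / ((3 * (v + 1) : ℕ) : ℚ) * Q p 2 (3 * v + 2)) -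
          2 * p * ((3 * (v + 1) : ℕ) : ℚ)⁻¹ * (1 + p * (2 * H (3 * v + 2) - H (m - 1 - v))))) =
        ∑ v ∈ range m, (Q p (-1) (v + 1) * (2 * p / ((p : ℚ) - 3 * ((v : ℚ) + 1)) *
          Q p 2 (p - 1 - 3 * (v + 1))) +
        2 * (Q p (-1) (m - 1 - v) * (2 * p / ((3 * (v + 1) : ℕ) : ℚ) * Q p 2 (3 * v + 2)))) -
        ∑ v ∈ range m, (2 * p * (-(3 * ((v : ℚ) + 1))⁻¹ - p * ((3 * ((v : ℚ) + 1))⁻¹) ^ 2 -
        p * (3 * ((v : ℚ) + 1))⁻¹ * (2 * H (3 * (v + 1)) - H (v + 1))) +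
        2 * (2 * p * ((3 * (v + 1) : ℕ) : ℚ)⁻¹ * (1 + p * (2 * H (3 * v + 2) - H (m - 1 - v)))) +
        4 * (p * (3 * ((v : ℚ) + 1))⁻¹ * (1 - p * H (3 * v + 2)))) +
        4 * ∑ v ∈ range m, p * (3 * ((v : ℚ) + 1))⁻¹ * (1 - p * H (3 * v + 2)) := by
      rw [mul_sum, ← sum_sub_distrib, ← sum_add_distrib]
      apply sum_congr rfl
      intro v _
      ring
    rw [h5, hexact]
    ring
  rw [e]
  apply Dv.add
  · apply Dv.sub
    · apply Dv.add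
      · exact (Q_top h3 in_two).in_mul in_two
      · exact (Q3 in_neg_one (by omega)).in_mul in_two
    · exact hrho.in_mul in_four
  · apply Dv.sum
    intro v hv
    rw [mem_range] at hv
    apply Dv.add
    · exact term_one h3 (by omega)
    · apply Dv.in_mul _ in_two
      exact term_two h3 (by omega) (by omega) (by omega) (by omega)

/-- `T_p ≡ 3 T_{p-1} (mod p²)` for `p ≡ 1 (mod 3)`, and `T_{p-1} ≡ 1 (mod p)` -/
lemma diff_one (hmod : p % 3 = 1) :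
    Dv p 2 ((T 3 3 p : ℚ) - 3 * T 3 3 (p - 1)) ∧ Dv p 1 ((T 3 3 (p - 1) : ℚ) - 1) := by
  set m := p / 3 with hm
  have hpm : p = 3 * m + 1 := by omega
  have hD : (T 3 3 p : ℚ) - T 3 3 (p - 1) = 2 * Q p 2 (p - 1) +
      ∑ v ∈ range m, (Q p (-1) (v + 1) * (2 * p / ((p : ℚ) - 3 * ((v : ℚ) + 1)) *
          Q p 2 (p - 1 - 3 * (v + 1))) +
        2 * (Q p (-1) (m - 1 - v) * (2 * p / ((3 * v + 2 : ℕ) : ℚ) * Q p 2 (3 * v + 1)))) := by
    rw [D_formula h3, ← hm]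
    rw [show ∑ v ∈ range (m + 1), Q p (-1) v * (((3 * (p - 1 - v) + 2).choose (2 * p - 1) : ℚ) +
        2 * ((3 * (p - 1 - v)).choose (2 * p - 1) : ℚ)) =
        ∑ v ∈ range (m + 1), Q p (-1) v * ((3 * (p - 1 - v) + 2).choose (2 * p - 1) : ℚ) +
        ∑ v ∈ range (m + 1), 2 * (Q p (-1) v * ((3 * (p - 1 - v)).choose (2 * p - 1) : ℚ)) by
      rw [← sum_add_distrib]
      apply sum_congr rfl
      intro v _
      ring]
    have h2 : ∑ v ∈ range (m + 1), Q p (-1) v * ((3 * (p - 1 - v) + 2).choose (2 * p - 1) : ℚ) =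
        2 * Q p 2 (p - 1) + ∑ v ∈ range m, (Q p (-1) (v + 1) * (2 * p / ((p : ℚ) - 3 * ((v : ℚ) + 1)) *
          Q p 2 (p - 1 - 3 * (v + 1)))) := by
      rw [sum_range_succ', add_comm]
      congr 1
      · have hpq : (p : ℚ) ≠ 0 := by
          have := hp.out.pos
          positivity
        rw [show 3 * (p - 1 - 0) + 2 = 2 * p - 1 + p by omega, choose_Q' (by omega)]
        simp only [Q_zero, one_mul]
        field_simp
      · apply sum_congr rfl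
        intro v hv
        rw [mem_range] at hv
        rw [show 3 * (p - 1 - (v + 1)) + 2 = 2 * p - 1 + (p - 3 * (v + 1)) by omega,
          choose_Q' (by omega), Nat.cast_sub (show 3 * (v + 1) ≤ p by omega),
          show p - 3 * (v + 1) - 1 = p - 1 - 3 * (v + 1) by omega]
        push_cast
        ring
    have h4 : ∑ v ∈ range (m + 1), 2 * (Q p (-1) v * ((3 * (p - 1 - v)).choose (2 * p - 1) : ℚ)) =
        ∑ v ∈ range m,
          2 * (Q p (-1) (m - 1 - v) * (2 * p / ((3 * v + 2 : ℕ) : ℚ) * Q p 2 (3 * v + 1))) := by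
      rw [sum_range_succ, ← sum_range_reflect]
      rw [Nat.choose_eq_zero_of_lt (show 3 * (p - 1 - m) < 2 * p - 1 by omega)]
      simp only [Nat.cast_zero, mul_zero, add_zero]
      apply sum_congr rfl
      intro v hv
      rw [mem_range] at hv
      rw [show 3 * (p - 1 - (m - 1 - v)) = 2 * p - 1 + (3 * v + 2) by omega,
        choose_Q' (by omega), show 3 * v + 2 - 1 = 3 * v + 1 by omega]
    rw [h2, h4, sum_add_distrib]
    ring
  have hA : Dv p 2 ((T 3 3 p : ℚ) - T 3 3 (p - 1) - (2 - 2 / 3 * p * H m)) := by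
    rw [hD]
    have e : 2 * Q p 2 (p - 1) +
      ∑ v ∈ range m, (Q p (-1) (v + 1) * (2 * p / ((p : ℚ) - 3 * ((v : ℚ) + 1)) *
          Q p 2 (p - 1 - 3 * (v + 1))) +
        2 * (Q p (-1) (m - 1 - v) * (2 * p / ((3 * v + 2 : ℕ) : ℚ) * Q p 2 (3 * v + 1)))) -
        (2 - 2 / 3 * p * H m) =
        2 * (Q p 2 (p - 1) - 1) + 4 * ((p : ℚ) ^ 1 * ∑ v ∈ range m, ((3 * v + 2 : ℕ) : ℚ)⁻¹) +
        ∑ v ∈ range m, ((Q p (-1) (v + 1) * (2 * p / ((p : ℚ) - 3 * ((v : ℚ) + 1)) *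
          Q p 2 (p - 1 - 3 * (v + 1))) -
          2 * p * (-(3 * ((v : ℚ) + 1))⁻¹ - p * ((3 * ((v : ℚ) + 1))⁻¹) ^ 2 -
          p * (3 * ((v : ℚ) + 1))⁻¹ * (2 * H (3 * (v + 1)) - H (v + 1)))) +
        2 * (Q p (-1) (m - 1 - v) * (2 * p / ((3 * v + 2 : ℕ) : ℚ) * Q p 2 (3 * v + 1)) -
          2 * p * ((3 * v + 2 : ℕ) : ℚ)⁻¹ * (1 + p * (2 * H (3 * v + 1) - H (m - 1 - v)))) -
        (p : ℚ) ^ 2 * (2 * ((3 * ((v : ℚ) + 1))⁻¹) ^ 2 +
          2 * (3 * ((v : ℚ) + 1))⁻¹ * (2 * H (3 * (v + 1)) - H (v + 1)) -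
          4 * ((3 * v + 2 : ℕ) : ℚ)⁻¹ * (2 * H (3 * v + 1) - H (m - 1 - v)))) := by
      have h5 : 2 / 3 * (p : ℚ) * H m = ∑ v ∈ range m, 2 * p * (3 * ((v : ℚ) + 1))⁻¹ := by
        unfold H
        rw [mul_sum]
        apply sum_congr rfl
        intro v _
        rw [mul_inv]
        ring
      rw [h5, pow_one, mul_sum, mul_sum]
      rw [show 2 * Q p 2 (p - 1) +
        ∑ v ∈ range m, (Q p (-1) (v + 1) * (2 * p / ((p : ℚ) - 3 * ((v : ℚ) + 1)) *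
          Q p 2 (p - 1 - 3 * (v + 1))) +
        2 * (Q p (-1) (m - 1 - v) * (2 * p / ((3 * v + 2 : ℕ) : ℚ) * Q p 2 (3 * v + 1)))) -
        (2 - ∑ v ∈ range m, 2 * p * (3 * ((v : ℚ) + 1))⁻¹) = 2 * (Q p 2 (p - 1) - 1) +
        (∑ v ∈ range m, (Q p (-1) (v + 1) * (2 * p / ((p : ℚ) - 3 * ((v : ℚ) + 1)) *
          Q p 2 (p - 1 - 3 * (v + 1))) +
        2 * (Q p (-1) (m - 1 - v) * (2 * p / ((3 * v + 2 : ℕ) : ℚ) * Q p 2 (3 * v + 1)))) +
        ∑ v ∈ range m, 2 * p * (3 * ((v : ℚ) + 1))⁻¹) by ring]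
      rw [add_assoc (2 * (Q p 2 (p - 1) - 1)), ← sum_add_distrib, ← sum_add_distrib]
      congr 1
      apply sum_congr rfl
      intro v _
      ring
    rw [e]
    apply Dv.add
    · apply Dv.add
      · exact ((Q_top h3 in_two).mono (by norm_num)).in_mul in_two
      · exact (Dv.mul (n := 1) (m := 1) (dv_p 1) (sum_two h3 hpm)).in_mul in_four
    · apply Dv.sum
      intro v hv
      rw [mem_range] at hv
      have hix : In p ((3 * ((v : ℚ) + 1))⁻¹) := by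
        have : ((3 * (v + 1) : ℕ) : ℚ) = 3 * ((v : ℚ) + 1) := by push_cast; ring
        rw [← this]
        exact in_inv_lt (by omega) (by omega)
      apply Dv.sub
      · apply Dv.add
        · exact (term_one h3 (by omega)).mono (by norm_num)
        · apply Dv.in_mul _ in_two
          exact (term_two h3 (by omega) (by omega) (by omega) (by omega)).mono (by norm_num)
      · apply (dv_p 2).mul_in
        apply In.sub
        · apply In.add
          · exact in_two.mul (hix.pow 2)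
          · exact (in_two.mul hix).mul ((in_two.mul (in_H (by omega))).sub (in_H (by omega)))
        · exact (in_four.mul (in_inv_lt (by omega) (by omega))).mul
            ((in_two.mul (in_H (by omega))).sub (in_H (by omega)))
  have hT := Tp_approx h3
  rw [← hm] at hT
  have hH : In p (H m) := in_H (by omega)
  constructor
  · have e : (T 3 3 p : ℚ) - 3 * T 3 3 (p - 1) =
        3 * ((T 3 3 p : ℚ) - T 3 3 (p - 1) - (2 - 2 / 3 * p * H m)) -
        2 * ((T 3 3 p : ℚ) - (3 - p * H m)) := by ring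
    rw [e]
    exact (hA.in_mul in_three).sub (hT.in_mul in_two)
  · have e : (T 3 3 (p - 1) : ℚ) - 1 = ((T 3 3 p : ℚ) - (3 - p * H m)) -
        ((T 3 3 p : ℚ) - T 3 3 (p - 1) - (2 - 2 / 3 * p * H m)) +
        (p : ℚ) ^ 1 * (-((3 : ℚ)⁻¹ * H m)) := by ring
    rw [e]
    exact ((hT.sub hA).mono (by norm_num)).add ((dv_p 1).mul_in ((in_inv_three h3).mul hH).neg)

/-- `T_p ≡ 3 rho (mod p²)` -/
lemma Tp_rho : Dv p 2 ((T 3 3 p : ℚ) - 3 * rho p) := by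
  have h1 := Tp_approx h3
  have h2 := (rho_approx h3).mono (m := 2) (by norm_num)
  have hmod : p % 3 ≠ 0 := by
    intro h0
    have := (Nat.prime_dvd_prime_iff_eq Nat.prime_three hp.out).1 (Nat.dvd_of_mod_eq_zero h0)
    omega
  have e : (T 3 3 p : ℚ) - 3 * rho p = ((T 3 3 p : ℚ) - (3 - p * H (p / 3))) -
      3 * ((rho p : ℚ) - (1 - ∑ v ∈ range (p / 3),
        p * (3 * ((v : ℚ) + 1))⁻¹ * (1 - p * H (3 * v + 2)))) -
      ∑ v ∈ range (p / 3), (p : ℚ) ^ 2 * (((v : ℚ) + 1)⁻¹ * H (3 * v + 2)) := by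
    have h5 : 3 * ∑ v ∈ range (p / 3), p * (3 * ((v : ℚ) + 1))⁻¹ * (1 - p * H (3 * v + 2)) =
        p * H (p / 3) - ∑ v ∈ range (p / 3), (p : ℚ) ^ 2 * (((v : ℚ) + 1)⁻¹ * H (3 * v + 2)) := by
      unfold H
      rw [mul_sum, mul_sum, ← sum_sub_distrib]
      apply sum_congr rfl
      intro v _
      rw [mul_inv]
      ring
    linarith
  rw [e]
  apply Dv.sub (h1.sub (h2.in_mul in_three))
  apply Dv.sum
  intro v hv
  rw [mem_range] at hv
  exact (dv_p 2).mul_in ((in_inv_succ (by omega)).mul (in_H (by omega)))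

end

end Pool.Agent.V11304.TM
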