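import Pool.Agent.V11304.TM.Padic

/-!
# `T_p(3,3)` and `T_{p-1}(3,3)` modulo powers of `p`
-/

set_option autoImplicit false

namespace Pool.Agent.V11304.TM

open Finset Pool.Agent.V11304.PI

/-! ### The sums over residue classes modulo `3` -/

/-- `∑_{k ≡ r (3)} (-1)^k C(n,k)` -/
def s (N r n : ℕ) : ℤ := ∑ k ∈ range N, if k % 3 = r then (-1) ^ k * (n.choose k : ℤ) else 0

lemma s_succ (N r n : ℕ) (hr : r < 3) : s (N + 1) r (n + 1) = s (N + 1) r n - s N ((r + 2) % 3) n := by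
  unfold s
  rw [sum_range_succ' _ N, sum_range_succ' (fun k => if k % 3 = r then (-1) ^ k * (n.choose k : ℤ) else 0) N]
  have h1 : ∀ k ∈ range N, (if (k + 1) % 3 = r then (-1) ^ (k + 1) * ((n + 1).choose (k + 1) : ℤ) else 0) =
      (if (k + 1) % 3 = r then (-1) ^ (k + 1) * (n.choose (k + 1) : ℤ) else 0) -
      (if k % 3 = (r + 2) % 3 then (-1) ^ k * (n.choose k : ℤ) else 0) := by
    intro k _
    by_cases h : (k + 1) % 3 = r
    · rw [if_pos h, if_pos h, if_pos (by omega), Nat.choose_succ_succ, pow_succ]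
      push_cast
      ring
    · rw [if_neg h, if_neg h, if_neg (by omega)]
      ring
  rw [sum_congr rfl h1, sum_sub_distrib]
  simp
  ring

lemma s_stable (N r n : ℕ) (h : n < N) : s (N + 1) r n = s N r n := by
  unfold s
  rw [sum_range_succ]
  rw [Nat.choose_eq_zero_of_lt h]
  simp

lemma s_rec (N n : ℕ) (h : n + 1 < N) : s N 0 (n + 1) = s N 0 n - s N 2 n ∧
    s N 1 (n + 1) = s N 1 n - s N 0 n ∧ s N 2 (n + 1) = s N 2 n - s N 1 n := by
  obtain ⟨N, rfl⟩ : ∃ N', N = N' + 1 := ⟨N - 1, by omega⟩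
  refine ⟨?_, ?_, ?_⟩
  · rw [s_succ N 0 n (by norm_num), s_stable N 0 n (by omega), s_stable N 2 n (by omega)]
  · rw [s_succ N 1 n (by norm_num), s_stable N 1 n (by omega), s_stable N 0 n (by omega)]
  · rw [s_succ N 2 n (by norm_num), s_stable N 2 n (by omega), s_stable N 1 n (by omega)]

lemma s_val (N t : ℕ) (h : 6 * t + 5 < N) : s N 0 (6 * t + 5) = (-27) ^ t * (-9) ∧
    s N 1 (6 * t + 5) = 0 ∧ s N 2 (6 * t + 5) = (-27) ^ t * 9 := by
  induction t with
  | zero =>
    have h0 : s N 0 0 = 1 ∧ s N 1 0 = 0 ∧ s N 2 0 = 0 := by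
      have e : ∀ r, s N r 0 = if 0 = r then 1 else 0 := by
        intro r
        unfold s
        rw [Finset.sum_eq_single 0]
        · simp
        · intro k _ hk
          rw [Nat.choose_eq_zero_of_lt (Nat.pos_of_ne_zero hk)]
          simp
        · intro h0
          exact absurd (Finset.mem_range.2 (by omega)) h0
      rw [e, e, e]
      simp
    obtain ⟨a0, a1, a2⟩ := h0
    obtain ⟨b0, b1, b2⟩ := s_rec N 0 (by omega)
    obtain ⟨c0, c1, c2⟩ := s_rec N 1 (by omega)
    obtain ⟨d0, d1, d2⟩ := s_rec N 2 (by omega)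
    obtain ⟨e0, e1, e2⟩ := s_rec N 3 (by omega)
    obtain ⟨f0, f1, f2⟩ := s_rec N 4 (by omega)
    simp only [zero_add, Nat.reduceAdd, mul_zero, pow_zero] at *
    refine ⟨by linarith, by linarith, by linarith⟩
  | succ t ih =>
    obtain ⟨a0, a1, a2⟩ := ih (by omega)
    obtain ⟨b0, b1, b2⟩ := s_rec N (6 * t + 5) (by omega)
    obtain ⟨c0, c1, c2⟩ := s_rec N (6 * t + 6) (by omega)
    obtain ⟨d0, d1, d2⟩ := s_rec N (6 * t + 7) (by omega)
    obtain ⟨e0, e1, e2⟩ := s_rec N (6 * t + 8) (by omega)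
    obtain ⟨f0, f1, f2⟩ := s_rec N (6 * t + 9) (by omega)
    obtain ⟨g0, g1, g2⟩ := s_rec N (6 * t + 10) (by omega)
    rw [show 6 * t + 5 + 1 = 6 * t + 6 by ring] at b0 b1 b2
    rw [show 6 * t + 6 + 1 = 6 * t + 7 by ring] at c0 c1 c2
    rw [show 6 * t + 7 + 1 = 6 * t + 8 by ring] at d0 d1 d2
    rw [show 6 * t + 8 + 1 = 6 * t + 9 by ring] at e0 e1 e2
    rw [show 6 * t + 9 + 1 = 6 * t + 10 by ring] at f0 f1 f2
    rw [show 6 * t + 10 + 1 = 6 * (t + 1) + 5 by ring] at g0 g1 g2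
    rw [pow_succ]
    refine ⟨by linarith, by linarith, by linarith⟩

variable {p : ℕ} [hp : Fact p.Prime]

/-- the square root of `3^(p-1)` -/
def rho (p : ℕ) : ℤ := ∑ u ∈ range (p / 3 + 1), (-1) ^ u * (p.choose (3 * u) : ℤ)

lemma rho_eq (p : ℕ) : rho p = s (p + 1) 0 p := by
  unfold rho s
  have h2 : ∑ u ∈ range (p / 3 + 1), (-1) ^ u * (p.choose (3 * u) : ℤ) =
      ∑ k ∈ (range (p / 3 + 1)).image (fun u => 3 * u),
        if k % 3 = 0 then (-1) ^ k * (p.choose k : ℤ) else 0 := by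
    rw [Finset.sum_image]
    · apply sum_congr rfl
      intro j _
      rw [if_pos (by omega), pow_mul]
      norm_num
    · intro a _ b _ hab
      simp only at hab
      omega
  rw [h2]
  apply sum_subset
  · intro i hi
    rw [Finset.mem_image] at hi
    obtain ⟨j, hj, rfl⟩ := hi
    rw [mem_range] at *
    omega
  · intro i hi hi2
    rw [if_neg]
    intro h3
    apply hi2
    rw [Finset.mem_image]
    rw [mem_range] at hi
    exact ⟨i / 3, by rw [mem_range]; omega, by omega⟩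

lemma rho_sq (h3 : 3 < p) (h : p % 3 = 2) : rho p ^ 2 = 3 ^ (p - 1) := by
  obtain ⟨t, ht⟩ : ∃ t, p = 6 * t + 5 := by
    have := hp.out.eq_two_or_odd
    exact ⟨p / 6, by omega⟩
  rw [rho_eq]
  obtain ⟨h1, -, -⟩ := s_val (p + 1) t (by omega)
  rw [← ht] at h1
  rw [h1, mul_pow, ← pow_mul, mul_comm t 2, pow_mul]
  have : p - 1 = 6 * t + 4 := by omega
  rw [this, pow_add, pow_mul]
  norm_num

/-! ### Exact formulas -/

lemma Tp_formula (h3 : 3 < p) : (T 3 3 p : ℚ) = 3 * Q p 2 (p - 1) -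
    ∑ v ∈ range (p / 3), p / ((v : ℚ) + 1) * Q p (-1) v * Q p 2 (p - 3 * (v + 1)) := by
  have hmod : p % 3 ≠ 0 := by
    intro h0
    have := (Nat.prime_dvd_prime_iff_eq Nat.prime_three hp.out).1 (Nat.dvd_of_mod_eq_zero h0)
    omega
  rw [T_formula, ← sum_range_reflect]
  have h1 : ∑ j ∈ range (p + 1), (p.choose (p + 1 - 1 - j) : ℤ) * (-1) ^ (p - (p + 1 - 1 - j)) *
      ((3 * (p + 1 - 1 - j)).choose (2 * p) : ℤ) =
      ∑ v ∈ range (p / 3 + 1), (-1) ^ v * (p.choose v : ℤ) * ((3 * (p - v)).choose (2 * p) : ℤ) := by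
    symm
    rw [← sum_subset (range_mono (show p / 3 + 1 ≤ p + 1 by omega))]
    · apply sum_congr rfl
      intro v hv
      rw [mem_range] at hv
      rw [show p + 1 - 1 - v = p - v by omega, show p - (p - v) = v by omega,
        Nat.choose_symm (show v ≤ p by omega)]
      ring
    · intro v hv hv2
      rw [mem_range] at *
      rw [Nat.choose_eq_zero_of_lt (show 3 * (p + 1 - 1 - v) < 2 * p by omega)]
      simp
  rw [h1, sum_range_succ']
  push_cast
  rw [add_comm, sub_eq_add_neg, ← sum_neg_distrib]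
  congr 1
  · have h2 : 3 * (p - 0) = 2 * p + p := by omega
    rw [h2, choose_Q]
    have h4 : Q p 2 p = Q p 2 (p - 1) * 3 := by
      have h5 := Q_succ p 2 (p - 1)
      rw [Nat.sub_add_cancel hp.out.pos] at h5
      rw [h5]
      congr 1
      have hpq : (p : ℚ) ≠ 0 := by
        have := hp.out.pos
        positivity
      have h6 : ((p - 1 : ℕ) : ℚ) + 1 = p := by
        rw [Nat.cast_sub hp.out.one_lt.le]
        push_cast
        ring
      rw [h6]
      field_simp
      norm_num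
    rw [h4]
    simp
    ring
  · apply sum_congr rfl
    intro v hv
    rw [mem_range] at hv
    rw [choose_B' (show v < p by omega)]
    have h2 : 3 * (p - (v + 1)) = 2 * p + (p - 3 * (v + 1)) := by omega
    rw [h2, choose_Q]
    ring

lemma D_formula (h3 : 3 < p) : (T 3 3 p : ℚ) - T 3 3 (p - 1) =
    ∑ v ∈ range (p / 3 + 1), Q p (-1) v * (((3 * (p - 1 - v) + 2).choose (2 * p - 1) : ℚ) +
      2 * ((3 * (p - 1 - v)).choose (2 * p - 1) : ℚ)) := by
  have hmod : p % 3 ≠ 0 := by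
    intro h0
    have := (Nat.prime_dvd_prime_iff_eq Nat.prime_three hp.out).1 (Nat.dvd_of_mod_eq_zero h0)
    omega
  have h0 := T_diff (p - 1)
  have hpos := hp.out.pos
  rw [Nat.sub_add_cancel hpos] at h0
  have h0' : ((T 3 3 p - T 3 3 (p - 1) : ℤ) : ℚ) = (T 3 3 p : ℚ) - T 3 3 (p - 1) := by push_cast; rfl
  rw [← h0', h0, ← sum_range_reflect]
  push_cast
  symm
  rw [sum_subset (range_mono (show p / 3 + 1 ≤ p by omega))]
  · apply sum_congr rfl
    intro v hv
    rw [mem_range] at hv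
    rw [show p - 1 - (p - 1 - v) = v by omega, ← choose_B (show v < p by omega),
      Nat.choose_symm (show v ≤ p - 1 by omega), show 2 * (p - 1) + 1 = 2 * p - 1 by omega]
    ring
  · intro v hv hv2
    rw [mem_range] at *
    rw [Nat.choose_eq_zero_of_lt (show 3 * (p - 1 - v) + 2 < 2 * p - 1 by omega),
      Nat.choose_eq_zero_of_lt (show 3 * (p - 1 - v) < 2 * p - 1 by omega)]
    simp

lemma rho_formula (h3 : 3 < p) : (rho p : ℚ) = 1 -
    ∑ v ∈ range (p / 3), p / (3 * ((v : ℚ) + 1)) * Q p (-1) (3 * v + 2) := by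
  unfold rho
  rw [sum_range_succ']
  push_cast
  rw [add_comm, sub_eq_add_neg, ← sum_neg_distrib]
  congr 1
  · simp
  · apply sum_congr rfl
    intro v hv
    rw [mem_range] at hv
    have h1 := choose_B' (p := p) (n := 3 * v + 2) (by omega)
    have h2 : (-1 : ℚ) ^ (3 * v + 2 + 1) = (-1) ^ (v + 1) := by
      rw [show 3 * v + 2 + 1 = 3 * (v + 1) by ring, pow_mul]
      norm_num
    rw [h2] at h1
    rw [show 3 * (v + 1) = 3 * v + 2 + 1 by ring, h1]
    push_cast
    rw [show (3 : ℚ) * v + 2 + 1 = 3 * (v + 1) by ring]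
    ring

end Pool.Agent.V11304.TM
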