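import Mathlib

/-!
# The sequences `T_n(3,3)` and `M_n(3,3)`

`T_n(b,c)` is the coefficient of `x^n` in `(x^2+bx+c)^n`, given by its explicit formula, and `M_n(b,c)` is
the variant with Catalan numbers. For `b = c = 3` we prove the recurrence, the relation
`2(n+2) M_n = T_{n+1} + T_n`, the closed form
`∑_{k ≤ n} T_k M_k/(-3)^k = (n+1)(T_n T_{n+2} - T_{n+1}²)/(6 (-3)^n)` and formulas in terms of `C(3k, j)`.
-/

set_option autoImplicit false

namespace Pool.Agent.V11304.TM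

open Finset

/-- `T_n(b,c) = ∑_{j ≤ n/2} C(n,2j) C(2j,j) b^(n-2j) c^j` -/
def T (b c : ℤ) (n : ℕ) : ℤ :=
  ∑ j ∈ range (n / 2 + 1), (n.choose (2 * j) : ℤ) * ((2 * j).choose j : ℤ) * b ^ (n - 2 * j) * c ^ j

/-- `M_n(b,c) = ∑_{j ≤ n/2} C(n,2j) Cat_j b^(n-2j) c^j` -/
def M (b c : ℤ) (n : ℕ) : ℤ :=
  ∑ j ∈ range (n / 2 + 1), (n.choose (2 * j) : ℤ) * (catalan j : ℤ) * b ^ (n - 2 * j) * c ^ j

/-- the summand of `T_n(3,3)` over the rationals -/
def t (n j : ℕ) : ℚ := (n.choose (2 * j) : ℚ) * ((2 * j).choose j : ℚ) * 3 ^ (n - 2 * j) * 3 ^ j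

lemma t_zero {n j : ℕ} (h : n < 2 * j) : t n j = 0 := by
  simp [t, Nat.choose_eq_zero_of_lt h]

lemma T_eq (n N : ℕ) (hN : n / 2 + 1 ≤ N) : (T 3 3 n : ℚ) = ∑ j ∈ range N, t n j := by
  have h1 : (T 3 3 n : ℚ) = ∑ j ∈ range (n / 2 + 1), t n j := by
    unfold T t
    push_cast
    rfl
  rw [h1]
  apply sum_subset (range_mono hN)
  intro j _ hj
  rw [mem_range] at hj
  exact t_zero (by omega)

lemma M_eq (n N : ℕ) (hN : n / 2 + 1 ≤ N) :
    (M 3 3 n : ℚ) = ∑ j ∈ range N, t n j / (j + 1) := by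
  have h1 : (M 3 3 n : ℚ) = ∑ j ∈ range (n / 2 + 1), t n j / (j + 1) := by
    unfold M t
    push_cast
    apply sum_congr rfl
    intro j _
    have h2 : (catalan j : ℚ) = ((2 * j).choose j : ℚ) / (j + 1) := by
      have h3 := succ_mul_catalan_eq_centralBinom j
      rw [Nat.centralBinom] at h3
      have h4 : ((j : ℚ) + 1) * (catalan j : ℚ) = ((2 * j).choose j : ℚ) := by exact_mod_cast h3
      rw [← h4]
      have : (j : ℚ) + 1 ≠ 0 := by positivity
      field_simp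
    rw [h2]
    ring
  rw [h1]
  apply sum_subset (range_mono hN)
  intro j _ hj
  rw [mem_range] at hj
  rw [t_zero (by omega), zero_div]

lemma t_succ (n j : ℕ) : t (n + 1) j * (n + 1 - 2 * j) = 3 * (n + 1) * t n j := by
  rcases Nat.lt_trichotomy (2 * j) (n + 1) with h | h | h
  · have h1 := Nat.choose_mul_succ_eq n (2 * j)
    have h2 : ((n.choose (2 * j) * (n + 1) : ℕ) : ℚ) =
        (((n + 1).choose (2 * j) * (n + 1 - 2 * j) : ℕ) : ℚ) := by rw [h1]
    push_cast [Nat.cast_sub h.le] at h2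
    unfold t
    have h3 : n + 1 - 2 * j = (n - 2 * j) + 1 := by omega
    rw [h3, pow_succ]
    linear_combination (-(3 : ℚ) * ((2 * j).choose j : ℚ) * 3 ^ (n - 2 * j) * 3 ^ j) * h2
  · rw [t_zero (show n < 2 * j by omega)]
    have : (n : ℚ) + 1 = 2 * j := by exact_mod_cast h.symm
    rw [this]
    ring
  · rw [t_zero h, t_zero (show n < 2 * j by omega)]
    ring

lemma t_succ_succ (n j : ℕ) : t (n + 1) (j + 1) * (j + 1) ^ 2 = (n + 1) * (n - 2 * j) * t n j := by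
  rcases Nat.lt_trichotomy (2 * j) n with h | h | h
  · have a1 : ((n : ℚ) + 1) * (n.choose (2 * j + 1) : ℚ) =
        ((n + 1).choose (2 * (j + 1)) : ℚ) * (2 * j + 2) := by
      have h1 := Nat.add_one_mul_choose_eq n (2 * j + 1)
      have h2 : (((n + 1) * n.choose (2 * j + 1) : ℕ) : ℚ) =
          (((n + 1).choose (2 * j + 1 + 1) * (2 * j + 1 + 1) : ℕ) : ℚ) := by rw [h1]
      push_cast at h2
      rw [show 2 * (j + 1) = 2 * j + 1 + 1 by ring]
      linarith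
    have a2 : (n.choose (2 * j + 1) : ℚ) * (2 * j + 1) = (n.choose (2 * j) : ℚ) * (n - 2 * j) := by
      have h1 := Nat.choose_succ_right_eq n (2 * j)
      have h2 : ((n.choose (2 * j + 1) * (2 * j + 1) : ℕ) : ℚ) =
          ((n.choose (2 * j) * (n - 2 * j) : ℕ) : ℚ) := by rw [h1]
      push_cast [Nat.cast_sub h.le] at h2
      linarith
    have a3 : ((j : ℚ) + 1) * ((2 * (j + 1)).choose (j + 1) : ℚ) =
        2 * (2 * j + 1) * ((2 * j).choose j : ℚ) := by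
      have := Nat.succ_mul_centralBinom_succ j
      simp only [Nat.centralBinom] at this
      have h5 : (((j + 1) * (2 * (j + 1)).choose (j + 1) : ℕ) : ℚ) =
          ((2 * (2 * j + 1) * (2 * j).choose j : ℕ) : ℚ) := by exact_mod_cast this
      push_cast at h5
      linarith
    unfold t
    have h3 : (3 : ℚ) ^ (n + 1 - 2 * (j + 1)) * 3 ^ (j + 1) = 3 ^ (n - 2 * j) * 3 ^ j := by
      have h4 : n - 2 * j = (n + 1 - 2 * (j + 1)) + 1 := by omega
      rw [h4, pow_succ, pow_succ]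
      ring
    have h4 : (((n + 1).choose (2 * (j + 1)) : ℚ) * ((2 * (j + 1)).choose (j + 1) : ℚ) *
        3 ^ (n + 1 - 2 * (j + 1)) * 3 ^ (j + 1)) * ((j : ℚ) + 1) ^ 2 =
        ((n + 1).choose (2 * (j + 1)) : ℚ) * ((2 * (j + 1)).choose (j + 1) : ℚ) *
        ((j : ℚ) + 1) ^ 2 * (3 ^ (n + 1 - 2 * (j + 1)) * 3 ^ (j + 1)) := by ring
    rw [h4, h3]
    set e : ℚ := 3 ^ (n - 2 * j) * 3 ^ j
    have h5 : (n.choose (2 * j) : ℚ) * ((2 * j).choose j : ℚ) * 3 ^ (n - 2 * j) * 3 ^ j =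
        (n.choose (2 * j) : ℚ) * ((2 * j).choose j : ℚ) * e := by ring
    rw [h5]
    linear_combination (e * ((n + 1).choose (2 * (j + 1)) : ℚ) * ((j : ℚ) + 1)) * a3 -
      (e * ((2 * j).choose j : ℚ) * (2 * (j : ℚ) + 1)) * a1 +
      (e * ((2 * j).choose j : ℚ) * ((n : ℚ) + 1)) * a2
  · rw [t_zero (show n + 1 < 2 * (j + 1) by omega)]
    have : (n : ℚ) = 2 * j := by exact_mod_cast h.symm
    rw [this]
    ring
  · rw [t_zero h, t_zero (show n + 1 < 2 * (j + 1) by omega)]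
    ring

/-- the relation between `M` and `T` -/
lemma M_rel (n : ℕ) : 2 * ((n : ℚ) + 2) * (M 3 3 n : ℚ) = T 3 3 (n + 1) + T 3 3 n := by
  have hsum := Finset.sum_range_sub (fun j : ℕ => -2 * (j : ℚ) * t (n + 1) j / (n + 1)) (n + 2)
  have h0 : t (n + 1) (n + 2) = 0 := t_zero (by omega)
  simp only [h0, mul_zero, zero_div, Nat.cast_zero, zero_mul, sub_zero] at hsum
  have hterm : ∀ j ∈ range (n + 2),
      (-2 * ((j + 1 : ℕ) : ℚ) * t (n + 1) (j + 1) / (n + 1) - -2 * (j : ℚ) * t (n + 1) j / (n + 1)) =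
      t (n + 1) j + t n j - 2 * (n + 2) * (t n j / (j + 1)) := by
    intro j _
    have h1 := t_succ n j
    have h2 := t_succ_succ n j
    have hn : (n : ℚ) + 1 ≠ 0 := by positivity
    have hj : (j : ℚ) + 1 ≠ 0 := by positivity
    have h3 : t (n + 1) (j + 1) = (n + 1) * (n - 2 * j) * t n j / (j + 1) ^ 2 := by
      rw [← h2]; field_simp
    have h4 : t n j = t (n + 1) j * (n + 1 - 2 * j) / (3 * (n + 1)) := by
      rw [h1]; field_simp
    rw [h3, h4]
    push_cast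
    field_simp
    ring
  rw [Finset.sum_congr rfl hterm, Finset.sum_sub_distrib, Finset.sum_add_distrib, ← Finset.mul_sum,
    ← T_eq (n + 1) (n + 2) (by omega), ← T_eq n (n + 2) (by omega), ← M_eq n (n + 2) (by omega)] at hsum
  linarith

/-- the weights `C(m,2j) C(2j,j)` -/
def w (m j : ℕ) : ℤ := (m.choose (2 * j) : ℤ) * ((2 * j).choose j : ℤ)

lemma w_zero (m : ℕ) : w m 0 = 1 := by simp [w]

lemma w_eq_zero {m j : ℕ} (h : m < 2 * j) : w m j = 0 := by
  simp [w, Nat.choose_eq_zero_of_lt h]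

lemma TZ_eq (b c : ℤ) (m N : ℕ) (hN : m / 2 + 1 ≤ N) :
    T b c m = ∑ j ∈ range N, w m j * b ^ (m - 2 * j) * c ^ j := by
  unfold T
  apply sum_subset (range_mono hN)
  intro j _ hj
  rw [mem_range] at hj
  have : m < 2 * j := by omega
  change w m j * _ * _ = 0
  rw [w_eq_zero this]
  simp

lemma w_rec (m j : ℕ) : ((m : ℤ) + 2) * w (m + 2) (j + 1) + (m + 1) * w m (j + 1) =
    (2 * m + 3) * w (m + 1) (j + 1) + 4 * (m + 1) * w m j := by
  unfold w
  have h1 : (m + 1).choose (2 * (j + 1)) = m.choose (2 * j + 1) + m.choose (2 * (j + 1)) := by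
    have : 2 * (j + 1) = (2 * j + 1) + 1 := by ring
    rw [this, Nat.choose_succ_succ]
  have h2 : (m + 2).choose (2 * (j + 1)) =
      m.choose (2 * j) + 2 * m.choose (2 * j + 1) + m.choose (2 * (j + 1)) := by
    have e : 2 * (j + 1) = (2 * j + 1) + 1 := by ring
    rw [e, Nat.choose_succ_succ, Nat.choose_succ_succ m (2 * j), Nat.choose_succ_succ m (2 * j + 1)]
    ring
  have h3 : (2 * j + 1 : ℤ) * (m.choose (2 * j + 1) : ℤ) =
      ((m : ℤ) - 2 * j) * (m.choose (2 * j) : ℤ) := by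
    rcases le_or_gt (2 * j) m with h | h
    · have := Nat.choose_succ_right_eq m (2 * j)
      have h4 : ((m.choose (2 * j + 1) * (2 * j + 1) : ℕ) : ℤ) =
          ((m.choose (2 * j) * (m - 2 * j) : ℕ) : ℤ) := by exact_mod_cast this
      push_cast [Nat.cast_sub h] at h4
      linarith
    · rw [Nat.choose_eq_zero_of_lt h, Nat.choose_eq_zero_of_lt (by omega)]
      simp
  have h4 : ((j : ℤ) + 1) * ((2 * (j + 1)).choose (j + 1) : ℤ) =
      2 * (2 * j + 1) * ((2 * j).choose j : ℤ) := by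
    have := Nat.succ_mul_centralBinom_succ j
    simp only [Nat.centralBinom] at this
    have h5 : (((j + 1) * (2 * (j + 1)).choose (j + 1) : ℕ) : ℤ) =
        ((2 * (2 * j + 1) * (2 * j).choose j : ℕ) : ℤ) := by exact_mod_cast this
    push_cast at h5
    linarith
  have h6 : ((2 * j : ℤ) + 1) ≠ 0 := by positivity
  apply mul_left_cancel₀ h6
  rw [h1, h2]
  push_cast
  linear_combination ((2 * (j + 1)).choose (j + 1) : ℤ) * h3 +
    2 * (m.choose (2 * j) : ℤ) * (m + 1) * h4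

/-- the three term recurrence -/
lemma TZ_rec (b c : ℤ) (m : ℕ) : ((m : ℤ) + 2) * T b c (m + 2) =
    (2 * m + 3) * b * T b c (m + 1) - (m + 1) * (b ^ 2 - 4 * c) * T b c m := by
  rw [TZ_eq b c (m + 2) (m + 4) (by omega), TZ_eq b c (m + 1) (m + 4) (by omega)]
  have h0 : T b c m = ∑ j ∈ range (m + 3), w m j * b ^ (m - 2 * j) * c ^ j :=
    TZ_eq b c m (m + 3) (by omega)
  have h0' : T b c m = ∑ j ∈ range (m + 4), w m j * b ^ (m - 2 * j) * c ^ j :=
    TZ_eq b c m (m + 4) (by omega)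
  have e1 : ((m : ℤ) + 1) * (b ^ 2 - 4 * c) * T b c m =
      (m + 1) * b ^ 2 * T b c m - 4 * (m + 1) * c * T b c m := by ring
  rw [e1]
  nth_rewrite 1 [h0']
  rw [h0]
  rw [sum_range_succ' _ (m + 3), sum_range_succ' _ (m + 3), sum_range_succ' _ (m + 3)]
  simp only [w_zero, mul_zero, Nat.sub_zero, pow_zero, mul_one, one_mul]
  have key : ∀ j ∈ range (m + 3),
      ((m : ℤ) + 2) * (w (m + 2) (j + 1) * b ^ (m + 2 - 2 * (j + 1)) * c ^ (j + 1)) =
      (2 * m + 3) * b * (w (m + 1) (j + 1) * b ^ (m + 1 - 2 * (j + 1)) * c ^ (j + 1)) -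
      ((m + 1) * b ^ 2 * (w m (j + 1) * b ^ (m - 2 * (j + 1)) * c ^ (j + 1)) -
        4 * (m + 1) * c * (w m j * b ^ (m - 2 * j) * c ^ j)) := by
    intro j _
    have hexp : m + 2 - 2 * (j + 1) = m - 2 * j := by omega
    rw [hexp]
    have hA : b * (w (m + 1) (j + 1) * b ^ (m + 1 - 2 * (j + 1))) =
        w (m + 1) (j + 1) * b ^ (m - 2 * j) := by
      rcases le_or_gt (2 * (j + 1)) (m + 1) with h | h
      · have : m - 2 * j = (m + 1 - 2 * (j + 1)) + 1 := by omega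
        rw [this, pow_succ]
        ring
      · rw [w_eq_zero h]
        ring
    have hB : b ^ 2 * (w m (j + 1) * b ^ (m - 2 * (j + 1))) =
        w m (j + 1) * b ^ (m - 2 * j) := by
      rcases le_or_gt (2 * (j + 1)) m with h | h
      · have : m - 2 * j = (m - 2 * (j + 1)) + 2 := by omega
        rw [this, pow_add]
        ring
      · rw [w_eq_zero h]
        ring
    have hr := w_rec m j
    linear_combination b ^ (m - 2 * j) * c ^ (j + 1) * hr - (2 * m + 3) * c ^ (j + 1) * hA +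
      (m + 1) * c ^ (j + 1) * hB
  rw [mul_add, mul_add, mul_add, mul_sum, mul_sum, mul_sum, mul_sum, sum_congr rfl key,
    sum_sub_distrib, sum_sub_distrib]
  ring

/-- the three term recurrence for `b = c = 3` -/
lemma T_rec (n : ℕ) : ((n : ℚ) + 2) * T 3 3 (n + 2) =
    3 * (2 * n + 3) * T 3 3 (n + 1) + 3 * (n + 1) * T 3 3 n := by
  have h := TZ_rec 3 3 n
  have h2 : ((((n : ℤ) + 2) * T 3 3 (n + 2) : ℤ) : ℚ) =
    (((2 * n + 3) * 3 * T 3 3 (n + 1) - (n + 1) * (3 ^ 2 - 4 * 3) * T 3 3 n : ℤ) : ℚ) := by rw [h]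
  push_cast at h2
  linarith

/-- the closed form of the sum -/
lemma closed (n : ℕ) : ∑ k ∈ range (n + 1), (T 3 3 k : ℚ) * M 3 3 k / (-3) ^ k =
    (n + 1) * (T 3 3 n * T 3 3 (n + 2) - (T 3 3 (n + 1) : ℚ) ^ 2) / (6 * (-3) ^ n) := by
  induction n with
  | zero =>
    have h0 : T 3 3 0 = 1 := by decide
    have h1 : T 3 3 1 = 3 := by decide
    have h2 : T 3 3 2 = 15 := by decide
    have h3 : M 3 3 0 = 1 := by simp [M]
    simp only [Finset.sum_range_one, zero_add, h0, h1, h2, h3]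
    norm_num
  | succ n ih =>
    rw [Finset.sum_range_succ, ih]
    have r1 := T_rec n
    have r2 := T_rec (n + 1)
    have r3 := M_rel (n + 1)
    push_cast at r1 r2 r3 ⊢
    have hn2 : (n : ℚ) + 2 ≠ 0 := by positivity
    have hn3 : (n : ℚ) + 3 ≠ 0 := by positivity
    have hn1 : (n : ℚ) + 1 ≠ 0 := by positivity
    set a : ℚ := (T 3 3 n : ℚ)
    set b : ℚ := (T 3 3 (n + 1) : ℚ)
    rw [show n + 1 + 1 = n + 2 by ring] at *
    rw [show n + 1 + 2 = n + 3 by ring] at *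
    have e2 : (T 3 3 (n + 2) : ℚ) = (3 * (2 * n + 3) * b + 3 * (n + 1) * a) / (n + 2) := by
      rw [← r1]; field_simp
    have e3 : (T 3 3 (n + 3) : ℚ) = (3 * (2 * (n + 1) + 3) * (T 3 3 (n + 2) : ℚ) + 3 * (n + 1 + 1) * b) /
        (n + 3) := by
      rw [← r2]; field_simp; ring
    have e4 : (M 3 3 (n + 1) : ℚ) = ((T 3 3 (n + 2) : ℚ) + b) / (2 * (n + 3)) := by
      rw [← r3]; field_simp; ring
    rw [e4, e3, e2]
    have h3 : (-3 : ℚ) ^ n ≠ 0 := by positivity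
    rw [pow_succ]
    field_simp
    ring

open Polynomial in
lemma coeff_sq (i : ℕ) : ((X ^ 2 + C 3 : ℤ[X]) ^ i).coeff i =
    if Even i then ((i.choose (i / 2) : ℤ)) * 3 ^ (i / 2) else 0 := by
  rw [add_pow, finset_sum_coeff]
  have h1 : ∀ l ∈ range (i + 1), (((X ^ 2 : ℤ[X]) ^ l * (C 3) ^ (i - l) * ((i.choose l : ℕ) : ℤ[X])).coeff i) =
      if 2 * l = i then (i.choose l : ℤ) * 3 ^ (i - l) else 0 := by
    intro l _
    have e : ((X ^ 2 : ℤ[X]) ^ l * (C 3) ^ (i - l) * ((i.choose l : ℕ) : ℤ[X])) =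
        C (3 ^ (i - l) * (i.choose l : ℤ)) * X ^ (2 * l) := by
      rw [← pow_mul, ← C_pow, C_mul]
      simp
      ring
    rw [e, coeff_C_mul, coeff_X_pow]
    by_cases h : 2 * l = i
    · rw [if_pos h.symm, if_pos h]; ring
    · rw [if_neg (fun h2 => h h2.symm), if_neg h]; ring
  rw [sum_congr rfl h1]
  by_cases h : Even i
  · obtain ⟨r, hr⟩ := h
    rw [if_pos ⟨r, hr⟩, Finset.sum_eq_single (i / 2)]
    · rw [if_pos (by omega), show i - i / 2 = i / 2 by omega]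
    · intro l _ hl
      rw [if_neg (by omega)]
    · intro hl
      exact absurd (Finset.mem_range.2 (by omega)) hl
  · rw [if_neg h, Finset.sum_eq_zero]
    intro l _
    rw [if_neg]
    intro h2
    exact h ⟨l, by omega⟩

open Polynomial in
lemma T_coeff (n : ℕ) : T 3 3 n = ((X ^ 2 + C 3 * X + C 3 : ℤ[X]) ^ n).coeff n := by
  have h0 : (X ^ 2 + C 3 * X + C 3 : ℤ[X]) = (X ^ 2 + C 3) + C 3 * X := by ring
  rw [h0, add_pow, finset_sum_coeff]
  have h1 : ∀ i ∈ range (n + 1), (((X ^ 2 + C 3 : ℤ[X]) ^ i * (C 3 * X) ^ (n - i) *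
      ((n.choose i : ℕ) : ℤ[X])).coeff n) = (n.choose i : ℤ) * 3 ^ (n - i) *
        (if Even i then ((i.choose (i / 2) : ℤ)) * 3 ^ (i / 2) else 0) := by
    intro i hi
    rw [Finset.mem_range] at hi
    have e : ((X ^ 2 + C 3 : ℤ[X]) ^ i * (C 3 * X) ^ (n - i) * ((n.choose i : ℕ) : ℤ[X])) =
        C ((n.choose i : ℤ) * 3 ^ (n - i)) * ((X ^ 2 + C 3 : ℤ[X]) ^ i * X ^ (n - i)) := by
      rw [mul_pow, ← C_pow, C_mul]
      simp
      ring
    rw [e, coeff_C_mul, coeff_mul_X_pow', if_pos (Nat.sub_le _ _), show n - (n - i) = i by omega,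
      coeff_sq]
  rw [sum_congr rfl h1]
  unfold T
  symm
  have h2 : ∑ j ∈ range (n / 2 + 1), (n.choose (2 * j) : ℤ) * ((2 * j).choose j : ℤ) *
      3 ^ (n - 2 * j) * 3 ^ j = ∑ i ∈ (range (n / 2 + 1)).image (fun j => 2 * j),
        (n.choose i : ℤ) * 3 ^ (n - i) *
        (if Even i then ((i.choose (i / 2) : ℤ)) * 3 ^ (i / 2) else 0) := by
    rw [Finset.sum_image]
    · apply sum_congr rfl
      intro j _
      rw [if_pos (even_two_mul j), show 2 * j / 2 = j by omega]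
      ring
    · intro a _ b _ hab
      simp only at hab
      omega
  rw [h2]
  symm
  apply sum_subset
  · intro i hi
    rw [Finset.mem_image] at hi
    obtain ⟨j, hj, rfl⟩ := hi
    rw [mem_range] at *
    omega
  · intro i hi hi2
    rw [if_neg, mul_zero]
    rintro ⟨r, hr⟩
    apply hi2
    rw [Finset.mem_image]
    rw [mem_range] at hi
    exact ⟨r, by rw [mem_range]; omega, by omega⟩

open Polynomial in
lemma Y_pow (n : ℕ) : (((1 + X) ^ 3 - 1 : ℤ[X])) ^ n =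
    ∑ k ∈ range (n + 1), C ((n.choose k : ℤ) * (-1) ^ (n - k)) * (1 + X) ^ (3 * k) := by
  rw [sub_eq_add_neg, add_pow]
  apply sum_congr rfl
  intro k _
  rw [← pow_mul, C_mul]
  simp
  ring

open Polynomial in
lemma Y_eq : (((1 + X) ^ 3 - 1 : ℤ[X])) = X * (X ^ 2 + C 3 * X + C 3) := by
  have : (C 3 : ℤ[X]) = 3 := rfl
  rw [this]
  ring

open Polynomial in
lemma T_formula (n : ℕ) : T 3 3 n =
    ∑ k ∈ range (n + 1), (n.choose k : ℤ) * (-1) ^ (n - k) * ((3 * k).choose (2 * n) : ℤ) := by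
  have h1 : ((((1 + X) ^ 3 - 1 : ℤ[X])) ^ n).coeff (2 * n) = T 3 3 n := by
    rw [Y_eq, mul_pow, mul_comm, two_mul, coeff_mul_X_pow, T_coeff]
  rw [← h1, Y_pow, finset_sum_coeff]
  apply sum_congr rfl
  intro k _
  rw [coeff_C_mul, coeff_one_add_X_pow]

open Polynomial in
lemma T_diff (n : ℕ) : T 3 3 (n + 1) - T 3 3 n =
    ∑ k ∈ range (n + 1), (n.choose k : ℤ) * (-1) ^ (n - k) *
      (((3 * k + 2).choose (2 * n + 1) : ℤ) + 2 * ((3 * k).choose (2 * n + 1) : ℤ)) := by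
  have h1 : ((((1 + X) ^ 3 - 1 : ℤ[X])) ^ (n + 1)).coeff (2 * (n + 1)) = T 3 3 (n + 1) := by
    rw [Y_eq, mul_pow, mul_comm, two_mul, coeff_mul_X_pow, T_coeff]
  have h2 : ((((1 + X) ^ 3 - 1 : ℤ[X])) ^ n).coeff (2 * n) = T 3 3 n := by
    rw [Y_eq, mul_pow, mul_comm, two_mul, coeff_mul_X_pow, T_coeff]
  have h3 : ((((1 + X) ^ 3 - 1 : ℤ[X])) ^ (n + 1)).coeff (2 * (n + 1)) =
      ((((1 + X) ^ 3 - 1 : ℤ[X])) ^ n * (X ^ 2 + C 3 * X + C 3)).coeff (2 * n + 1) := by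
    have e : (((1 + X) ^ 3 - 1 : ℤ[X])) ^ (n + 1) =
        ((((1 + X) ^ 3 - 1 : ℤ[X])) ^ n * (X ^ 2 + C 3 * X + C 3)) * X := by
      rw [pow_succ]
      nth_rewrite 2 [Y_eq]
      ring
    rw [e, show 2 * (n + 1) = 2 * n + 1 + 1 by ring, coeff_mul_X]
  have h4 : ((((1 + X) ^ 3 - 1 : ℤ[X])) ^ n).coeff (2 * n) =
      ((((1 + X) ^ 3 - 1 : ℤ[X])) ^ n * X).coeff (2 * n + 1) := by
    rw [coeff_mul_X]
  rw [← h1, ← h2, h3, h4, ← coeff_sub]
  have h5 : (((1 + X) ^ 3 - 1 : ℤ[X])) ^ n * (X ^ 2 + C 3 * X + C 3) -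
      (((1 + X) ^ 3 - 1 : ℤ[X])) ^ n * X =
      ∑ k ∈ range (n + 1), (C ((n.choose k : ℤ) * (-1) ^ (n - k)) * (1 + X) ^ (3 * k + 2) +
        C (2 * ((n.choose k : ℤ) * (-1) ^ (n - k))) * (1 + X) ^ (3 * k)) := by
    have e : (((1 + X) ^ 3 - 1 : ℤ[X])) ^ n * (X ^ 2 + C 3 * X + C 3) -
      (((1 + X) ^ 3 - 1 : ℤ[X])) ^ n * X = (((1 + X) ^ 3 - 1 : ℤ[X])) ^ n * ((1 + X) ^ 2 + 2) := by
      have : (C 3 : ℤ[X]) = 3 := rfl
      rw [this]
      ring
    rw [e, Y_pow, sum_mul]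
    apply sum_congr rfl
    intro k _
    have : (C (2 : ℤ) : ℤ[X]) = 2 := rfl
    rw [C_mul (a := (2 : ℤ)), this]
    ring
  rw [h5, finset_sum_coeff]
  apply sum_congr rfl
  intro k _
  rw [coeff_add, coeff_C_mul, coeff_C_mul, coeff_one_add_X_pow, coeff_one_add_X_pow]
  ring

end Pool.Agent.V11304.TM
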