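import Pool.Agent.V11304.PI.PolySum
import Pool.Agent.V11304.PI.PowBinom
import Pool.Agent.V11304.TM.Seq

/-!
# Products `∏ (1 + a p / l)` modulo `p ^ 3`
-/

set_option autoImplicit false

namespace Pool.Agent.V11304.TM

open Finset Pool.Agent.V11304.PI

variable {p : ℕ} [hp : Fact p.Prime]

/-- `∏_{l = 1}^n (1 + a p / l)` -/
noncomputable def Q (p : ℕ) (a : ℚ) (n : ℕ) : ℚ := ∏ l ∈ range n, (1 + a * p / ((l : ℚ) + 1))

/-- harmonic numbers -/
noncomputable def H (n : ℕ) : ℚ := ∑ l ∈ range n, ((l : ℚ) + 1)⁻¹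

/-- `∑_{l < j ≤ n} 1/(l j)` -/
noncomputable def E (n : ℕ) : ℚ := ∑ j ∈ range n, H j * ((j : ℚ) + 1)⁻¹

lemma Q_zero (p : ℕ) (a : ℚ) : Q p a 0 = 1 := by simp [Q]

lemma Q_succ (p : ℕ) (a : ℚ) (n : ℕ) : Q p a (n + 1) = Q p a n * (1 + a * p / ((n : ℚ) + 1)) := by
  unfold Q
  rw [prod_range_succ]

lemma H_zero : H 0 = 0 := by simp [H]

lemma H_succ (n : ℕ) : H (n + 1) = H n + ((n : ℚ) + 1)⁻¹ := by
  unfold H
  rw [sum_range_succ]

lemma E_zero : E 0 = 0 := by simp [E]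

lemma E_succ (n : ℕ) : E (n + 1) = E n + H n * ((n : ℚ) + 1)⁻¹ := by
  unfold E
  rw [sum_range_succ]

lemma in_inv_succ {i : ℕ} (h : i + 1 < p) : In p (((i : ℚ) + 1)⁻¹) := by
  have := in_inv_nat (p := p) (natCast_ne (p := p) (n := i + 1) (by omega) h)
  push_cast at this
  exact this

lemma in_H {n : ℕ} (h : n < p) : In p (H n) := by
  unfold H
  apply In.sum
  intro i hi
  rw [mem_range] at hi
  exact in_inv_succ (by omega)

lemma in_E {n : ℕ} (h : n < p) : In p (E n) := by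
  unfold E
  apply In.sum
  intro i hi
  rw [mem_range] at hi
  exact (in_H (by omega)).mul (in_inv_succ (by omega))

lemma Q3 {a : ℚ} (ha : In p a) {n : ℕ} (h : n < p) :
    Dv p 3 (Q p a n - (1 + a * p * H n + a ^ 2 * p ^ 2 * E n)) := by
  induction n with
  | zero =>
    rw [Q_zero, H_zero, E_zero]
    have : (1 : ℚ) - (1 + a * p * 0 + a ^ 2 * p ^ 2 * 0) = 0 := by ring
    rw [this]
    exact dv_zero 3
  | succ n ih =>
    have ih' := ih (by omega)
    have hi := in_inv_succ (p := p) (i := n) h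
    rw [Q_succ, H_succ, E_succ]
    have e : Q p a n * (1 + a * p / ((n : ℚ) + 1)) -
        (1 + a * p * (H n + ((n : ℚ) + 1)⁻¹) + a ^ 2 * p ^ 2 * (E n + H n * ((n : ℚ) + 1)⁻¹)) =
        (Q p a n - (1 + a * p * H n + a ^ 2 * p ^ 2 * E n)) * (1 + a * p * ((n : ℚ) + 1)⁻¹) +
        (p : ℚ) ^ 3 * (a ^ 3 * E n * ((n : ℚ) + 1)⁻¹) := by
      rw [div_eq_mul_inv]
      ring
    rw [e]
    apply Dv.add
    · exact ih'.mul_in (in_one.add ((ha.mul (in_nat p)).mul hi))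
    · exact (dv_p 3).mul_in (((ha.pow 3).mul (in_E (by omega))).mul hi)

lemma Q2 {a : ℚ} (ha : In p a) {n : ℕ} (h : n < p) :
    Dv p 2 (Q p a n - (1 + a * p * H n)) := by
  have h3 := (Q3 ha h).mono (m := 2) (by norm_num)
  have e : Q p a n - (1 + a * p * H n) = (Q p a n - (1 + a * p * H n + a ^ 2 * p ^ 2 * E n)) +
      (p : ℚ) ^ 2 * (a ^ 2 * E n) := by ring
  rw [e]
  exact h3.add ((dv_p 2).mul_in ((ha.pow 2).mul (in_E h)))

lemma Q1 {a : ℚ} (ha : In p a) {n : ℕ} (h : n < p) : Dv p 1 (Q p a n - 1) := by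
  have h3 := (Q2 ha h).mono (m := 1) (by norm_num)
  have e : Q p a n - 1 = (Q p a n - (1 + a * p * H n)) + (p : ℚ) ^ 1 * (a * H n) := by ring
  rw [e]
  exact h3.add ((dv_p 1).mul_in (ha.mul (in_H h)))

lemma in_Q {a : ℚ} (ha : In p a) {n : ℕ} (h : n < p) : In p (Q p a n) := by
  obtain ⟨u, hu, h1⟩ := Q1 ha h
  have : Q p a n = 1 + (p : ℚ) * u := by linarith
  rw [this]
  exact in_one.add ((in_nat p).mul hu)

lemma in_two : In p (2 : ℚ) := by
  have := in_nat (p := p) 2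
  exact_mod_cast this

lemma in_three : In p (3 : ℚ) := by
  have := in_nat (p := p) 3
  exact_mod_cast this

lemma in_four : In p (4 : ℚ) := by
  have := in_nat (p := p) 4
  exact_mod_cast this

lemma in_neg_one : In p (-1 : ℚ) := in_one.neg

lemma in_inv_two (h : 3 < p) : In p ((2 : ℚ)⁻¹) := by
  have := in_inv_nat (p := p) (natCast_ne (p := p) (n := 2) (by omega) (by omega))
  exact_mod_cast this

lemma in_inv_three (h : 3 < p) : In p ((3 : ℚ)⁻¹) := by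
  have := in_inv_nat (p := p) (natCast_ne (p := p) (n := 3) (by omega) (by omega))
  exact_mod_cast this

lemma in_inv_lt {i : ℕ} (h0 : 0 < i) (h : i < p) : In p ((i : ℚ)⁻¹) :=
  in_inv_nat (natCast_ne h0 h)

/-- `∑ 1/i² ≡ 0` -/
lemma hb_top (h : 3 < p) : hb p (p - 1) = 0 := by
  have h1 : ∑ x : ZMod p, (x ^ 2)⁻¹ = 0 := by
    have h2 : ∑ x : ZMod p, (x ^ 2)⁻¹ = ∑ x : ZMod p, x ^ 2 := by
      rw [← Equiv.sum_comp (Equiv.inv (ZMod p))]
      apply Finset.sum_congr rfl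
      intro x _
      simp
    rw [h2]
    apply FiniteField.sum_pow_lt_card_sub_one
    rw [ZMod.card]
    have := hp.out.eq_two_or_odd
    by_contra hcon
    have : p ≤ 3 := by omega
    omega
  rw [← sum_range_eq (fun x : ZMod p => (x ^ 2)⁻¹)] at h1
  have h3 := Finset.sum_range_succ' (fun k : ℕ => (((k : ZMod p)) ^ 2)⁻¹) (p - 1)
  rw [Nat.sub_add_cancel hp.out.pos, h1] at h3
  simp only [Nat.cast_zero, ne_eq, OfNat.ofNat_ne_zero, not_false_eq_true, zero_pow, inv_zero,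
    add_zero] at h3
  unfold hb
  rw [h3]
  apply Finset.sum_congr rfl
  intro i _
  push_cast
  rfl

lemma dv_hq_top (h : 3 < p) : Dv p 1 (hq (p - 1)) := by
  have h1 := ok_hq (p := p) (n := p - 1) (by omega)
  rw [hb_top h] at h1
  exact h1.dv

/-- a pairing identity -/
lemma pair_inv {x : ℚ} (hx : x ≠ 0) (hpx : (p : ℚ) - x ≠ 0) :
    ((p : ℚ) - x)⁻¹ + x⁻¹ = p * (x⁻¹ * ((p : ℚ) - x)⁻¹) := by
  field_simp
  ring

lemma H_refl_sum : H (p - 1) = ∑ l ∈ range (p - 1), ((p : ℚ) - ((l : ℚ) + 1))⁻¹ := by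
  unfold H
  rw [← sum_range_reflect]
  apply sum_congr rfl
  intro l hl
  rw [mem_range] at hl
  have h1 : ((p - 1 - 1 - l : ℕ) : ℚ) = (p : ℚ) - 2 - l := by
    have : p - 1 - 1 - l + (2 + l) = p := by omega
    have h2 : ((p - 1 - 1 - l + (2 + l) : ℕ) : ℚ) = (p : ℚ) := by rw [this]
    push_cast at h2 ⊢
    linarith
  rw [h1]
  congr 1
  ring

lemma succ_rat {l : ℕ} (h : l + 1 < p) : ((l : ℚ) + 1) ≠ 0 ∧ (p : ℚ) - ((l : ℚ) + 1) ≠ 0 ∧
    In p (((p : ℚ) - ((l : ℚ) + 1))⁻¹) := by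
  have h1 : ((p - (l + 1) : ℕ) : ℚ) = (p : ℚ) - ((l : ℚ) + 1) := by
    rw [Nat.cast_sub (by omega)]
    push_cast
    rfl
  refine ⟨by positivity, ?_, ?_⟩
  · rw [← h1]
    have : 0 < p - (l + 1) := by omega
    positivity
  · rw [← h1]
    exact in_inv_lt (by omega) (by omega)

/-- `H_{p-1} ≡ 0 (mod p²)` -/
lemma dv_H_top (h : 3 < p) : Dv p 2 (H (p - 1)) := by
  have h1 : 2 * H (p - 1) = p * ∑ l ∈ range (p - 1), ((l : ℚ) + 1)⁻¹ * ((p : ℚ) - ((l : ℚ) + 1))⁻¹ := by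
    have h2 : 2 * H (p - 1) = H (p - 1) + H (p - 1) := by ring
    rw [h2]
    nth_rewrite 1 [H_refl_sum]
    unfold H
    rw [← sum_add_distrib, mul_sum]
    apply sum_congr rfl
    intro l hl
    rw [mem_range] at hl
    obtain ⟨a, b, -⟩ := succ_rat (p := p) (l := l) (by omega)
    exact pair_inv a b
  have h3 : Dv p 1 (∑ l ∈ range (p - 1), ((l : ℚ) + 1)⁻¹ * ((p : ℚ) - ((l : ℚ) + 1))⁻¹) := by
    have h4 : ∑ l ∈ range (p - 1), ((l : ℚ) + 1)⁻¹ * ((p : ℚ) - ((l : ℚ) + 1))⁻¹ =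
        (∑ l ∈ range (p - 1), (((l : ℚ) + 1)⁻¹ * (((p : ℚ) - ((l : ℚ) + 1))⁻¹ + ((l : ℚ) + 1)⁻¹))) -
          hq (p - 1) := by
      unfold hq
      rw [← sum_sub_distrib]
      apply sum_congr rfl
      intro l _
      rw [← inv_pow]
      ring
    rw [h4]
    apply Dv.sub _ (dv_hq_top h)
    apply Dv.sum
    intro l hl
    rw [mem_range] at hl
    obtain ⟨a, b, c⟩ := succ_rat (p := p) (l := l) (by omega)
    have d := in_inv_succ (p := p) (i := l) (by omega)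
    rw [pair_inv a b]
    have e : ((l : ℚ) + 1)⁻¹ * (p * (((l : ℚ) + 1)⁻¹ * ((p : ℚ) - ((l : ℚ) + 1))⁻¹)) =
        (p : ℚ) ^ 1 * (((l : ℚ) + 1)⁻¹ * (((l : ℚ) + 1)⁻¹ * ((p : ℚ) - ((l : ℚ) + 1))⁻¹)) := by ring
    rw [e]
    exact (dv_p 1).mul_in (d.mul (d.mul c))
  have h5 : H (p - 1) = (2 : ℚ)⁻¹ * ((p : ℚ) ^ 1 *
      ∑ l ∈ range (p - 1), ((l : ℚ) + 1)⁻¹ * ((p : ℚ) - ((l : ℚ) + 1))⁻¹) := by
    rw [pow_one, ← h1]
    ring
  rw [h5]
  exact ((dv_p 1).mul h3).in_mul (in_inv_two h)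

lemma E_eq (n : ℕ) : 2 * E n = H n ^ 2 - hq n := by
  induction n with
  | zero => simp [E_zero, H_zero, hq]
  | succ n ih =>
    rw [E_succ, H_succ]
    have h1 : hq (n + 1) = hq n + (((n : ℚ) + 1) ^ 2)⁻¹ := by
      unfold hq
      rw [sum_range_succ]
    rw [h1, mul_add, ih, ← inv_pow]
    ring

lemma dv_E_top (h : 3 < p) : Dv p 1 (E (p - 1)) := by
  have h1 : E (p - 1) = (2 : ℚ)⁻¹ * (H (p - 1) * H (p - 1) - hq (p - 1)) := by
    have := E_eq (p - 1)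
    rw [← pow_two, ← this]
    ring
  rw [h1]
  apply Dv.in_mul _ (in_inv_two h)
  apply Dv.sub _ (dv_hq_top h)
  exact ((dv_H_top h).mono (m := 1) (by norm_num)).mul_in (in_H (by omega))

/-- `Q a (p - 1) ≡ 1 (mod p³)` -/
lemma Q_top (h : 3 < p) {a : ℚ} (ha : In p a) : Dv p 3 (Q p a (p - 1) - 1) := by
  have h1 := Q3 ha (n := p - 1) (by omega)
  have e : Q p a (p - 1) - 1 =
      (Q p a (p - 1) - (1 + a * p * H (p - 1) + a ^ 2 * p ^ 2 * E (p - 1))) +
      (a * ((p : ℚ) ^ 1 * H (p - 1)) + a ^ 2 * ((p : ℚ) ^ 2 * E (p - 1))) := by ring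
  rw [e]
  apply h1.add
  apply Dv.add
  · exact ((dv_p 1).mul (dv_H_top h)).in_mul ha
  · exact ((dv_p 2).mul (dv_E_top h)).in_mul (ha.pow 2)

/-- reflection of harmonic numbers -/
lemma H_refl (h : 3 < p) {k : ℕ} (hk : k < p) : Dv p 1 (H (p - 1 - k) - H k) := by
  have key : ∀ k, k < p → H (p - 1 - k) = H (p - 1) - ∑ l ∈ range k, ((p : ℚ) - ((l : ℚ) + 1))⁻¹ := by
    intro k
    induction k with
    | zero => intro _; simp
    | succ k ih =>
      intro hk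
      rw [sum_range_succ]
      have h1 := ih (by omega)
      have h2 : p - 1 - k = (p - 1 - (k + 1)) + 1 := by omega
      rw [h2, H_succ] at h1
      have h3 : ((p - 1 - (k + 1) : ℕ) : ℚ) + 1 = (p : ℚ) - ((k : ℚ) + 1) := by
        have h4 : p - 1 - (k + 1) + 1 + (k + 1) = p := by omega
        have h5 : ((p - 1 - (k + 1) + 1 + (k + 1) : ℕ) : ℚ) = (p : ℚ) := by rw [h4]
        push_cast at h5 ⊢
        linarith
      rw [h3] at h1
      linarith
  rw [key k hk]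
  have e : H (p - 1) - ∑ l ∈ range k, ((p : ℚ) - ((l : ℚ) + 1))⁻¹ - H k =
      H (p - 1) - ∑ l ∈ range k, (((p : ℚ) - ((l : ℚ) + 1))⁻¹ + ((l : ℚ) + 1)⁻¹) := by
    rw [sum_add_distrib]
    unfold H
    ring
  rw [e]
  apply Dv.sub ((dv_H_top h).mono (by norm_num))
  apply Dv.sum
  intro l hl
  rw [mem_range] at hl
  obtain ⟨a, b, c⟩ := succ_rat (p := p) (l := l) (by omega)
  have d := in_inv_succ (p := p) (i := l) (by omega)
  rw [pair_inv a b]
  have := (dv_p (p := p) 1).mul_in (d.mul c)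
  rw [pow_one] at this
  exact this

/-- binomial coefficients as products -/
lemma choose_Q (n : ℕ) : ((2 * p + n).choose (2 * p) : ℚ) = Q p 2 n := by
  have h : ∀ n, ((2 * p + n).choose n : ℚ) = Q p 2 n := by
    intro n
    induction n with
    | zero => simp [Q_zero]
    | succ n ih =>
      rw [Q_succ, ← ih]
      have h1 := Nat.add_one_mul_choose_eq (2 * p + n) n
      have h2 : (((2 * p + n + 1) * (2 * p + n).choose n : ℕ) : ℚ) =
          (((2 * p + n + 1).choose (n + 1) * (n + 1) : ℕ) : ℚ) := by rw [h1]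
      push_cast at h2
      have hn : (n : ℚ) + 1 ≠ 0 := by positivity
      rw [← add_assoc]
      field_simp
      linarith
  rw [← h n, ← Nat.choose_symm_add]

lemma choose_Q' {i : ℕ} (hi : 1 ≤ i) :
    ((2 * p - 1 + i).choose (2 * p - 1) : ℚ) = 2 * p / i * Q p 2 (i - 1) := by
  obtain ⟨n, rfl⟩ : ∃ n, i = n + 1 := ⟨i - 1, by omega⟩
  have hp0 := hp.out.pos
  have h0 : 2 * p - 1 + (n + 1) = 2 * p + n := by omega
  rw [h0, Nat.add_sub_cancel, ← choose_Q]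
  -- C(2p+n, 2p-1) (n+1) = C(2p+n, 2p) (2p)
  have h1 := Nat.choose_succ_right_eq (2 * p + n) (2 * p - 1)
  rw [show 2 * p - 1 + 1 = 2 * p by omega, show 2 * p + n - (2 * p - 1) = n + 1 by omega] at h1
  have h2 : (((2 * p + n).choose (2 * p) * (2 * p) : ℕ) : ℚ) =
      (((2 * p + n).choose (2 * p - 1) * (n + 1) : ℕ) : ℚ) := by rw [h1]
  push_cast at h2 ⊢
  have hn : (n : ℚ) + 1 ≠ 0 := by positivity
  field_simp
  linarith

lemma choose_B {n : ℕ} (h : n < p) : (-1) ^ n * ((p - 1).choose n : ℚ) = Q p (-1) n := by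
  induction n with
  | zero => simp [Q_zero]
  | succ n ih =>
    rw [Q_succ, ← ih (by omega)]
    have h1 := Nat.choose_succ_right_eq (p - 1) n
    have h2 : (((p - 1).choose (n + 1) * (n + 1) : ℕ) : ℚ) =
        (((p - 1).choose n * (p - 1 - n) : ℕ) : ℚ) := by rw [h1]
    have h3 : ((p - 1 - n : ℕ) : ℚ) = (p : ℚ) - 1 - n := by
      rw [Nat.cast_sub (by omega), Nat.cast_sub (by omega)]
      push_cast
      ring
    push_cast [h3] at h2
    have hn : (n : ℚ) + 1 ≠ 0 := by positivity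
    rw [pow_succ]
    field_simp
    linear_combination (-1 : ℚ) * h2

lemma choose_B' {n : ℕ} (h : n < p) :
    (-1) ^ (n + 1) * (p.choose (n + 1) : ℚ) = -(p / ((n : ℚ) + 1)) * Q p (-1) n := by
  rw [← choose_B h]
  have h1 := Nat.add_one_mul_choose_eq (p - 1) n
  have hp0 := hp.out.pos
  rw [show p - 1 + 1 = p by omega] at h1
  have h2 : ((p * (p - 1).choose n : ℕ) : ℚ) = ((p.choose (n + 1) * (n + 1) : ℕ) : ℚ) := by rw [h1]
  push_cast at h2
  have hn : (n : ℚ) + 1 ≠ 0 := by positivity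
  rw [pow_succ]
  field_simp
  linear_combination h2

end Pool.Agent.V11304.TM
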